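import Pool.Agent.H92.CG.Reduced

/-!
# Partial zeta functions of ideal classes
-/

open NumberField Module
open scoped nonZeroDivisors

namespace Pool.Agent.H92.CG

section partialzeta

variable {K : Type*} [Field K] [NumberField K]

theorem units_finite [IsTotallyComplex K] (h2 : finrank ℚ K = 2) : Finite (𝓞 K)ˣ := by
  have h : (NumberField.Units.torsion K) = ⊤ := by
    rw [eq_top_iff]
    intro u _
    rw [NumberField.Units.mem_torsion]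
    intro w
    have h3 := norm_int_eq h2 w.embedding (u : 𝓞 K)
    have h4 : IsUnit (Algebra.norm ℤ (u : 𝓞 K)) := u.isUnit.map (Algebra.norm ℤ)
    have h5 : w.embedding (u : 𝓞 K) ≠ 0 := by
      simp
    rw [← InfinitePlace.norm_embedding_eq w]
    rcases Int.isUnit_iff.1 h4 with h6 | h6
    · rw [h6] at h3
      have h7 : ‖w.embedding (u : 𝓞 K)‖ ^ 2 = 1 := by rw [← h3]; norm_num
      exact (pow_eq_one_iff_of_nonneg (norm_nonneg _) (by norm_num)).1 h7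
    · rw [h6] at h3
      have h7 : 0 ≤ ‖w.embedding (u : 𝓞 K)‖ ^ 2 := by positivity
      rw [← h3] at h7
      norm_num at h7
  have h3 : Finite (NumberField.Units.torsion K) := inferInstance
  rw [h] at h3
  exact Finite.of_equiv _ (Subgroup.topEquiv (G := (𝓞 K)ˣ)).toEquiv

theorem exists_equiv (c : ClassGroup (𝓞 K)) (J : (Ideal (𝓞 K))⁰)
    (hJ : ClassGroup.mk0 J = c⁻¹) :
    ∃ e : {I : (Ideal (𝓞 K))⁰ // ClassGroup.mk0 I = c} × (𝓞 K)ˣ ≃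
        {x : (J : Ideal (𝓞 K)) // x ≠ 0},
      ∀ p, Ideal.span {(((e p : {x : (J : Ideal (𝓞 K)) // x ≠ 0}) : (J : Ideal (𝓞 K))) : 𝓞 K)} =
        (p.1.1 : Ideal (𝓞 K)) * (J : Ideal (𝓞 K)) := by
  have hJ0 : (J : Ideal (𝓞 K)) ≠ 0 := nonZeroDivisors.coe_ne_zero J
  have hgen : ∀ I : {I : (Ideal (𝓞 K))⁰ // ClassGroup.mk0 I = c}, ∃ g : 𝓞 K,
      Ideal.span {g} = (I.1 : Ideal (𝓞 K)) * (J : Ideal (𝓞 K)) := by
    intro I
    have h1 : ClassGroup.mk0 (I.1 * J) = 1 := by rw [map_mul, I.2, hJ, mul_inv_cancel]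
    have h2 : ((I.1 * J : (Ideal (𝓞 K))⁰) : Ideal (𝓞 K)).IsPrincipal :=
      (ClassGroup.mk0_eq_one_iff (I.1 * J).2).1 h1
    obtain ⟨g, hg⟩ := h2
    exact ⟨g, hg.symm⟩
  choose g hg using hgen
  have hg0 : ∀ I, g I ≠ 0 := by
    intro I h
    have h1 := hg I
    rw [h, Ideal.span_singleton_eq_bot.2 rfl] at h1
    exact mul_ne_zero (nonZeroDivisors.coe_ne_zero I.1) hJ0 h1.symm
  have hspan : ∀ (p : {I : (Ideal (𝓞 K))⁰ // ClassGroup.mk0 I = c} × (𝓞 K)ˣ),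
      Ideal.span {(p.2 : 𝓞 K) * g p.1} = (p.1.1 : Ideal (𝓞 K)) * (J : Ideal (𝓞 K)) := by
    intro p
    rw [← hg p.1, Ideal.span_singleton_eq_span_singleton]
    exact (associated_unit_mul_left _ _ p.2.isUnit)
  have hmem : ∀ (p : {I : (Ideal (𝓞 K))⁰ // ClassGroup.mk0 I = c} × (𝓞 K)ˣ),
      (p.2 : 𝓞 K) * g p.1 ∈ (J : Ideal (𝓞 K)) := by
    intro p
    have h1 : (p.2 : 𝓞 K) * g p.1 ∈ Ideal.span {(p.2 : 𝓞 K) * g p.1} :=
      Ideal.mem_span_singleton_self _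
    rw [hspan p] at h1
    exact Ideal.mul_le_right h1
  let f : {I : (Ideal (𝓞 K))⁰ // ClassGroup.mk0 I = c} × (𝓞 K)ˣ →
      {x : (J : Ideal (𝓞 K)) // x ≠ 0} := fun p =>
    ⟨⟨(p.2 : 𝓞 K) * g p.1, hmem p⟩, by
      intro h
      have h1 : (p.2 : 𝓞 K) * g p.1 = 0 := congrArg Subtype.val h
      exact mul_ne_zero p.2.ne_zero (hg0 p.1) h1⟩
  have hinj : Function.Injective f := by
    intro p q h
    have h1 : (p.2 : 𝓞 K) * g p.1 = (q.2 : 𝓞 K) * g q.1 :=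
      congrArg (fun x => ((x : (J : Ideal (𝓞 K))) : 𝓞 K)) (congrArg Subtype.val h)
    have h2 : (p.1.1 : Ideal (𝓞 K)) * (J : Ideal (𝓞 K)) =
        (q.1.1 : Ideal (𝓞 K)) * (J : Ideal (𝓞 K)) := by
      rw [← hspan p, ← hspan q, h1]
    have h3 : (p.1.1 : Ideal (𝓞 K)) = (q.1.1 : Ideal (𝓞 K)) := mul_right_cancel₀ hJ0 h2
    have h4 : p.1 = q.1 := Subtype.ext (Subtype.ext h3)
    rw [h4] at h1
    have h5 : (p.2 : 𝓞 K) = (q.2 : 𝓞 K) := mul_right_cancel₀ (hg0 q.1) h1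
    exact Prod.ext h4 (Units.ext h5)
  have hsurj : Function.Surjective f := by
    rintro ⟨⟨x, hx⟩, hx0⟩
    have hx0' : x ≠ 0 := fun h => hx0 (Subtype.ext h)
    have h1 : (J : Ideal (𝓞 K)) ∣ Ideal.span {x} := by
      rw [Ideal.dvd_span_singleton]; exact hx
    obtain ⟨I, hI⟩ := h1
    have hsx : Ideal.span {x} ∈ (Ideal (𝓞 K))⁰ := by
      rw [mem_nonZeroDivisors_iff_ne_zero]
      intro h
      exact hx0' (Ideal.span_singleton_eq_bot.1 h)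
    have hI0 : I ∈ (Ideal (𝓞 K))⁰ := by
      rw [mem_nonZeroDivisors_iff_ne_zero]
      rintro rfl
      rw [mul_zero] at hI
      exact hx0' (Ideal.span_singleton_eq_bot.1 hI)
    have h2 : (⟨Ideal.span {x}, hsx⟩ : (Ideal (𝓞 K))⁰) = J * ⟨I, hI0⟩ := Subtype.ext hI
    have h3 : ClassGroup.mk0 (⟨Ideal.span {x}, hsx⟩ : (Ideal (𝓞 K))⁰) = 1 :=
      (ClassGroup.mk0_eq_one_iff hsx).2 ⟨⟨x, rfl⟩⟩
    rw [h2, map_mul, hJ] at h3
    have h4 : ClassGroup.mk0 (⟨I, hI0⟩ : (Ideal (𝓞 K))⁰) = c := (inv_mul_eq_one.1 h3).symm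
    have h5 := hg ⟨⟨I, hI0⟩, h4⟩
    have h6 : Ideal.span {g ⟨⟨I, hI0⟩, h4⟩} = Ideal.span {x} := by
      rw [h5, hI, mul_comm]
    rw [Ideal.span_singleton_eq_span_singleton] at h6
    obtain ⟨u, hu⟩ := h6
    refine ⟨(⟨⟨I, hI0⟩, h4⟩, u), ?_⟩
    apply Subtype.ext
    apply Subtype.ext
    change (u : 𝓞 K) * g ⟨⟨I, hI0⟩, h4⟩ = x
    rw [mul_comm, hu]
  exact ⟨Equiv.ofBijective f ⟨hinj, hsurj⟩, fun p => hspan p⟩

theorem norm_sq_eq_absNorm [IsTotallyComplex K] (h2 : finrank ℚ K = 2) (σ : K →+* ℂ) (x : 𝓞 K) :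
    ‖σ x‖ ^ 2 = (Ideal.absNorm (Ideal.span {x}) : ℝ) := by
  rw [Ideal.absNorm_span_singleton, ← norm_int_eq h2 σ, Nat.cast_natAbs, abs_of_nonneg]
  have : (0 : ℝ) ≤ ((Algebra.norm ℤ x : ℤ) : ℝ) := by
    rw [norm_int_eq h2 σ]; positivity
  exact_mod_cast this

/-- The continuation of the partial zeta function. -/
noncomputable def Zc {A : ℝ} (hA : 0 < A) (β D w : ℝ) (s : ℂ) : ℂ :=
  (w : ℂ)⁻¹ * ((2 * Real.pi / D : ℝ) : ℂ) ^ s *
    ((pair hA β).Λ₀ s * (Complex.Gamma s)⁻¹ - (Complex.Gamma (s + 1))⁻¹ -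
      (1 - s)⁻¹ * (Complex.Gamma s)⁻¹)

theorem Zc_differentiableOn {A : ℝ} (hA : 0 < A) (β : ℝ) {D : ℝ} (hD : 0 < D) (w : ℝ) :
    DifferentiableOn ℂ (Zc hA β D w) {1}ᶜ := by
  intro s hs
  apply DifferentiableAt.differentiableWithinAt
  unfold Zc
  have h1 : DifferentiableAt ℂ (fun s => (pair hA β).Λ₀ s) s := (pair hA β).differentiable_Λ₀ s
  have h2 : DifferentiableAt ℂ (fun s => (Complex.Gamma s)⁻¹) s :=
    Complex.differentiable_one_div_Gamma s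
  have h3 : DifferentiableAt ℂ (fun s => (Complex.Gamma (s + 1))⁻¹) s := by
    have := Complex.differentiable_one_div_Gamma.comp
      ((differentiable_id (𝕜 := ℂ) (E := ℂ)).add_const (1 : ℂ))
    exact this s
  have h4 : DifferentiableAt ℂ (fun s : ℂ => (1 - s)⁻¹) s := by
    apply DifferentiableAt.inv
    · fun_prop
    · intro h
      exact hs (by simp only [Set.mem_singleton_iff]; linear_combination -h)
  have h5 : DifferentiableAt ℂ (fun s : ℂ => ((2 * Real.pi / D : ℝ) : ℂ) ^ s) s := by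
    apply DifferentiableAt.const_cpow differentiableAt_id
    left
    have : (2 * Real.pi / D : ℝ) ≠ 0 := by positivity
    exact_mod_cast this
  exact (((differentiableAt_const _).mul h5)).mul (((h1.mul h2).sub h3).sub (h4.mul h2))

theorem Zc_eq {A : ℝ} (hA : 0 < A) (β D w : ℝ) {s : ℂ} (hs : s ≠ 0) :
    Zc hA β D w s = (w : ℂ)⁻¹ * ((2 * Real.pi / D : ℝ) : ℂ) ^ s * (Complex.Gamma s)⁻¹ *
      (pair hA β).Λ s := by
  unfold Zc
  rw [WeakFEPair.Λ, Complex.Gamma_add_one s hs]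
  simp only [pair, smul_eq_mul, Complex.ofReal_one, mul_inv, one_div]
  ring

theorem Zc_hasSum [IsTotallyComplex K] (h2 : finrank ℚ K = 2) (σ : K →+* ℂ)
    (c : ClassGroup (𝓞 K)) (J : (Ideal (𝓞 K))⁰) (hJ : ClassGroup.mk0 J = c⁻¹) {A β : ℝ}
    (hA : 0 < A) (E : ℤ × ℤ ≃ (J : Ideal (𝓞 K)))
    (hE : ∀ v, 2 * ‖σ (E v : 𝓞 K)‖ ^ 2 /
      ((Ideal.absNorm (J : Ideal (𝓞 K)) : ℝ) * √|((discr K : ℤ) : ℝ)|) = qf A β v)
    {s : ℂ} (hs : 1 < s.re) :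
    HasSum (fun I : {I : (Ideal (𝓞 K))⁰ // ClassGroup.mk0 I = c} =>
      ((Ideal.absNorm (I.1 : Ideal (𝓞 K)) : ℕ) : ℂ) ^ (-s))
      (Zc hA β (√|((discr K : ℤ) : ℝ)|) (Nat.card (𝓞 K)ˣ) s) := by
  have := units_finite (K := K) h2
  have : Fintype (𝓞 K)ˣ := Fintype.ofFinite _
  set D : ℝ := √|((discr K : ℤ) : ℝ)| with hD
  have hDpos : 0 < D := by
    apply Real.sqrt_pos.2
    rw [abs_pos]
    exact_mod_cast discr_ne_zero K
  have hs0 : s ≠ 0 := by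
    rintro rfl
    simp at hs
    linarith
  have hNpos : 0 < (Ideal.absNorm (J : Ideal (𝓞 K)) : ℝ) := by
    have : Ideal.absNorm (J : Ideal (𝓞 K)) ≠ 0 := by
      rw [Ne, Ideal.absNorm_eq_zero_iff]
      exact nonZeroDivisors.coe_ne_zero J
    positivity
  have h1 := hasSum_Lam hA β hs
  let f : ↥(J : Ideal (𝓞 K)) → ℂ := fun x => (Real.pi : ℂ) ^ (-s) * Complex.Gamma s * 1 /
    (((2 * ‖σ (x : 𝓞 K)‖ ^ 2 / ((Ideal.absNorm (J : Ideal (𝓞 K)) : ℝ) * D) : ℝ)) : ℂ) ^ s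
  have h3 : HasSum f ((pair hA β).Λ s) := by
    rw [← E.hasSum_iff]
    convert h1 using 1
    funext v
    simp only [Function.comp, f]
    rw [hE v]
  have h4 : HasSum (fun x : {x : (J : Ideal (𝓞 K)) // x ≠ 0} => f x) ((pair hA β).Λ s) := by
    have h5 : Function.support f ⊆ {x | x ≠ 0} := by
      intro x hx
      by_contra h
      simp only [Set.mem_ofPred_eq, not_not] at h
      apply hx
      simp only [f, h]
      simp [Complex.zero_cpow hs0]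
    exact (hasSum_subtype_iff_of_support_subset h5).2 h3
  obtain ⟨e, he⟩ := exists_equiv c J hJ
  have h5 := e.hasSum_iff.2 h4
  have h6 : ∀ p, f (e p : {x : (J : Ideal (𝓞 K)) // x ≠ 0}) =
      (Real.pi : ℂ) ^ (-s) * Complex.Gamma s * (((2 / D : ℝ) : ℂ) ^ (-s) *
        ((Ideal.absNorm (p.1.1 : Ideal (𝓞 K)) : ℕ) : ℂ) ^ (-s)) := by
    intro p
    simp only [f]
    rw [norm_sq_eq_absNorm h2 σ, he p, map_mul]
    have h7 : (2 * (((Ideal.absNorm (p.1.1 : Ideal (𝓞 K)) *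
        Ideal.absNorm (J : Ideal (𝓞 K)) : ℕ)) : ℝ) /
        ((Ideal.absNorm (J : Ideal (𝓞 K)) : ℝ) * D)) =
        (2 / D) * (Ideal.absNorm (p.1.1 : Ideal (𝓞 K)) : ℝ) := by
      push_cast
      field_simp
    rw [h7, Complex.ofReal_mul, Complex.mul_cpow_ofReal_nonneg (by positivity) (by positivity)]
    rw [Complex.cpow_neg, Complex.cpow_neg _ s, Complex.cpow_neg _ s]
    push_cast
    rw [mul_one, div_eq_mul_inv, mul_inv]
  have h7 : HasSum (fun p : {I : (Ideal (𝓞 K))⁰ // ClassGroup.mk0 I = c} × (𝓞 K)ˣ =>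
      (Real.pi : ℂ) ^ (-s) * Complex.Gamma s * (((2 / D : ℝ) : ℂ) ^ (-s) *
        ((Ideal.absNorm (p.1.1 : Ideal (𝓞 K)) : ℕ) : ℂ) ^ (-s))) ((pair hA β).Λ s) := by
    convert h5 using 1
    funext p
    exact (h6 p).symm
  have h8 := h7.prod_fiberwise (fun I => hasSum_fintype _)
  simp only [Finset.sum_const, Finset.card_univ, nsmul_eq_mul] at h8
  have h9 := h8.mul_left (((Nat.card (𝓞 K)ˣ : ℝ) : ℂ)⁻¹ * ((2 * Real.pi / D : ℝ) : ℂ) ^ s *
    (Complex.Gamma s)⁻¹)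
  rw [← Zc_eq hA β D _ hs0] at h9
  refine Eq.mpr (congrArg (fun g => HasSum g _) (funext fun I => ?_)) h9
  have hw : ((Fintype.card (𝓞 K)ˣ : ℕ) : ℂ) ≠ 0 := by
    exact_mod_cast Fintype.card_ne_zero
  have hG : Complex.Gamma s ≠ 0 := Complex.Gamma_ne_zero_of_re_pos (by linarith)
  have hpi : (Real.pi : ℂ) ^ s ≠ 0 := by
    rw [Complex.cpow_ne_zero_iff_of_exponent_ne_zero hs0]
    exact_mod_cast Real.pi_pos.ne'
  have h2D : ((2 / D : ℝ) : ℂ) ^ s ≠ 0 := by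
    rw [Complex.cpow_ne_zero_iff_of_exponent_ne_zero hs0]
    have : (2 / D : ℝ) ≠ 0 := by positivity
    exact_mod_cast this
  have h10 : ((2 * Real.pi / D : ℝ) : ℂ) ^ s = ((2 / D : ℝ) : ℂ) ^ s * (Real.pi : ℂ) ^ s := by
    rw [← Complex.mul_cpow_ofReal_nonneg (by positivity) Real.pi_pos.le, ← Complex.ofReal_mul]
    congr 2
    ring
  rw [h10, Complex.cpow_neg (Real.pi : ℂ), Complex.cpow_neg ((2 / D : ℝ) : ℂ)]
  rw [Nat.card_eq_fintype_card]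
  push_cast
  push_cast at h2D
  field_simp

end partialzeta

end Pool.Agent.H92.CG
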