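import Mathlib

/-!
# The `L`-function of a class group character
-/

open NumberField
open scoped nonZeroDivisors

namespace Pool.Agent.H92.CG

/-- `L` is the `L`-function of the class group character `χ` of the number field `K`: it is
holomorphic on `ℂ \ {1}`, and for `Re s > 1` it is the (unconditionally convergent) sum of
`χ([I]) N(I)^(-s)` over the nonzero ideals `I` of the ring of integers.
By the identity theorem these two properties determine `L` on `ℂ \ {1}`. -/
def IsClassGroupL {K : Type*} [Field K] [NumberField K]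
    (χ : ClassGroup (𝓞 K) →* ℂˣ) (L : ℂ → ℂ) : Prop :=
  DifferentiableOn ℂ L {1}ᶜ ∧
    ∀ s : ℂ, 1 < s.re → HasSum (fun I : (Ideal (𝓞 K))⁰ =>
      ((χ (ClassGroup.mk0 I) : ℂˣ) : ℂ) * ((Ideal.absNorm (I : Ideal (𝓞 K)) : ℕ) : ℂ) ^ (-s)) (L s)

end Pool.Agent.H92.CG
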