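import Pool.Agent.H92.CG.Classes
import Pool.Agent.H92.CG.Defs

/-!
# Class group `L`-functions of imaginary quadratic fields
-/

open NumberField Module
open scoped nonZeroDivisors

namespace Pool.Agent.H92.CG

section chars

variable {G : Type*} [CommGroup G] [Finite G]

theorem finite_dual : Finite (G →* ℂˣ) := by
  apply Nat.finite_of_card_ne_zero
  rw [CommGroup.card_monoidHom_of_hasEnoughRootsOfUnity G ℂ]
  exact Nat.card_pos.ne'

open Classical in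
theorem sum_char [Fintype (G →* ℂˣ)] (g : G) :
    ∑ χ : G →* ℂˣ, ((χ g : ℂˣ) : ℂ) = if g = 1 then (Nat.card G : ℂ) else 0 := by
  split_ifs with hg
  · subst hg
    simp only [map_one, Units.val_one, Finset.sum_const, Finset.card_univ, nsmul_eq_mul, mul_one]
    rw [← Nat.card_eq_fintype_card, CommGroup.card_monoidHom_of_hasEnoughRootsOfUnity G ℂ]
  · obtain ⟨ψ, hψ⟩ := CommGroup.exists_apply_ne_one_of_hasEnoughRootsOfUnity G ℂ hg
    have h1 : ∑ χ : G →* ℂˣ, ((χ g : ℂˣ) : ℂ) = ((ψ g : ℂˣ) : ℂ) * ∑ χ : G →* ℂˣ, ((χ g : ℂˣ) : ℂ) := by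
      rw [Finset.mul_sum]
      rw [← Equiv.sum_comp (Equiv.mulLeft ψ)]
      refine Finset.sum_congr rfl fun χ _ => ?_
      simp
    have h2 : (((ψ g : ℂˣ) : ℂ) - 1) * ∑ χ : G →* ℂˣ, ((χ g : ℂˣ) : ℂ) = 0 := by
      rw [sub_mul, ← h1, one_mul, sub_self]
    rcases mul_eq_zero.1 h2 with h3 | h3
    · exfalso
      apply hψ
      apply Units.ext
      rw [Units.val_one]
      exact sub_eq_zero.1 h3
    · exact h3

/-- If a function `a` on a finite abelian group has `a 1 > a c` for all `c ≠ 1` then for each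
`c ≠ 1` there is a character `χ` with `χ c ≠ 1` and `Re (∑ χ(d) a(d)) > 0`. -/
theorem exists_char [Fintype G] (a : G → ℝ) (ha : ∀ c, c ≠ 1 → a c < a 1) (c : G) (hc : c ≠ 1) :
    ∃ χ : G →* ℂˣ, χ c ≠ 1 ∧ 0 < (∑ d : G, ((χ d : ℂˣ) : ℂ) * (a d : ℂ)).re := by
  classical
  have := finite_dual (G := G)
  have : Fintype (G →* ℂˣ) := Fintype.ofFinite _
  have hG : 0 < (Nat.card G : ℝ) := by exact_mod_cast Nat.card_pos
  -- the orthogonality relation
  have horth : ∀ g : G, ∑ χ : G →* ℂˣ, ((χ g : ℂˣ) : ℂ) * ∑ d : G, ((χ d : ℂˣ) : ℂ) * (a d : ℂ) =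
      (Nat.card G : ℂ) * (a g⁻¹ : ℂ) := by
    intro g
    have h1 : ∀ χ : G →* ℂˣ, ((χ g : ℂˣ) : ℂ) * ∑ d : G, ((χ d : ℂˣ) : ℂ) * (a d : ℂ) =
        ∑ d : G, (a d : ℂ) * ((χ (g * d) : ℂˣ) : ℂ) := by
      intro χ
      rw [Finset.mul_sum]
      refine Finset.sum_congr rfl fun d _ => ?_
      rw [map_mul, Units.val_mul]
      ring
    simp_rw [h1]
    rw [Finset.sum_comm]
    simp_rw [← Finset.mul_sum, sum_char]
    rw [Finset.sum_eq_single g⁻¹]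
    · simp [mul_comm]
    · intro d _ hd
      rw [if_neg, mul_zero]
      intro h
      exact hd (eq_inv_of_mul_eq_one_right h)
    · simp
  have hnorm : ∀ χ : G →* ℂˣ, ‖((χ c : ℂˣ) : ℂ)‖ = 1 := by
    intro χ
    have h1 : (χ c) ^ (Nat.card G) = 1 := by rw [← map_pow, pow_card_eq_one', map_one]
    have h2 : ((χ c : ℂˣ) : ℂ) ^ (Nat.card G) = 1 := by
      rw [← Units.val_pow_eq_pow_val, h1, Units.val_one]
    exact Complex.norm_eq_one_of_pow_eq_one h2 Nat.card_pos.ne'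
  have hinv : ∀ χ : G →* ℂˣ, ((χ c⁻¹ : ℂˣ) : ℂ) = (starRingEnd ℂ) ((χ c : ℂˣ) : ℂ) := by
    intro χ
    rw [map_inv, Units.val_inv_eq_inv_val, Complex.inv_def, Complex.normSq_eq_norm_sq, hnorm χ]
    simp
  have hsum : ∑ χ : G →* ℂˣ, ((2 - 2 * ((χ c : ℂˣ) : ℂ).re) *
      (∑ d : G, ((χ d : ℂˣ) : ℂ) * (a d : ℂ)).re) =
      (Nat.card G : ℝ) * (2 * a 1 - a c - a c⁻¹) := by
    have h1 := horth 1
    have h2 := horth c
    have h3 := horth c⁻¹
    have h4 : ∑ χ : G →* ℂˣ, ((2 - ((χ c : ℂˣ) : ℂ) - ((χ c⁻¹ : ℂˣ) : ℂ)) *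
      (∑ d : G, ((χ d : ℂˣ) : ℂ) * (a d : ℂ))) =
      (Nat.card G : ℂ) * (2 * a 1 - a c - a c⁻¹) := by
      simp only [sub_mul, Finset.sum_sub_distrib]
      rw [h2, h3]
      simp only [map_one, Units.val_one, one_mul, inv_one] at h1
      rw [← Finset.mul_sum, h1, inv_inv]
      ring
    have h5 := congrArg Complex.re h4
    rw [Complex.re_sum] at h5
    have h6 : ((Nat.card G : ℂ) * (2 * a 1 - a c - a c⁻¹)).re =
        (Nat.card G : ℝ) * (2 * a 1 - a c - a c⁻¹) := by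
      have : ((Nat.card G : ℂ) * (2 * a 1 - a c - a c⁻¹)) =
        (((Nat.card G : ℝ) * (2 * a 1 - a c - a c⁻¹) : ℝ) : ℂ) := by push_cast; rfl
      rw [this, Complex.ofReal_re]
    rw [h6] at h5
    rw [← h5]
    refine Finset.sum_congr rfl fun χ _ => ?_
    have h7 : (2 - ((χ c : ℂˣ) : ℂ) - ((χ c⁻¹ : ℂˣ) : ℂ)) =
        ((2 - 2 * ((χ c : ℂˣ) : ℂ).re : ℝ) : ℂ) := by
      rw [hinv]
      apply Complex.ext
      · simp; ring
      · simp
    rw [h7, Complex.re_ofReal_mul]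
  have hpos : 0 < ∑ χ : G →* ℂˣ, ((2 - 2 * ((χ c : ℂˣ) : ℂ).re) *
      (∑ d : G, ((χ d : ℂˣ) : ℂ) * (a d : ℂ)).re) := by
    rw [hsum]
    have h1 := ha c hc
    have h2 := ha c⁻¹ (by rwa [Ne, inv_eq_one])
    apply mul_pos hG
    linarith
  have hpos' : ∑ _χ : G →* ℂˣ, (0 : ℝ) < ∑ χ : G →* ℂˣ, ((2 - 2 * ((χ c : ℂˣ) : ℂ).re) *
      (∑ d : G, ((χ d : ℂˣ) : ℂ) * (a d : ℂ)).re) := by
    rw [Finset.sum_const_zero]; exact hpos
  obtain ⟨χ, -, hχ⟩ := Finset.exists_lt_of_sum_lt hpos'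
  have h8 : 0 ≤ 2 - 2 * ((χ c : ℂˣ) : ℂ).re := by
    have h9 := Complex.re_le_norm ((χ c : ℂˣ) : ℂ)
    rw [hnorm χ] at h9
    linarith
  refine ⟨χ, ?_, ?_⟩
  · intro h
    rw [h] at hχ
    simp at hχ
  · by_contra h
    push Not at h
    have := mul_nonpos_of_nonneg_of_nonpos h8 h
    linarith

end chars

section lfun

variable {K : Type*} [Field K] [NumberField K]

theorem IsClassGroupL.unique {χ : ClassGroup (𝓞 K) →* ℂˣ} {L L' : ℂ → ℂ}
    (h : IsClassGroupL χ L) (h' : IsClassGroupL χ L') {s : ℂ} (hs : s ≠ 1) : L s = L' s := by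
  have hopen : IsOpen ({1}ᶜ : Set ℂ) := isOpen_compl_singleton
  have h1 : AnalyticOnNhd ℂ L {1}ᶜ := h.1.analyticOnNhd hopen
  have h2 : AnalyticOnNhd ℂ L' {1}ᶜ := h'.1.analyticOnNhd hopen
  have hpre : IsPreconnected ({1}ᶜ : Set ℂ) :=
    (isConnected_compl_singleton_of_one_lt_rank (by simp) (1 : ℂ)).isPreconnected
  have hev : L =ᶠ[nhds (2 : ℂ)] L' := by
    have h3 : {s : ℂ | 1 < s.re} ∈ nhds (2 : ℂ) :=
      (isOpen_lt continuous_const Complex.continuous_re).mem_nhds (by simp)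
    filter_upwards [h3] with z hz
    exact (h.2 z hz).unique (h'.2 z hz)
  exact h1.eqOn_of_preconnected_of_eventuallyEq h2 hpre (z₀ := 2) (by simp) hev hs

theorem isClassGroupL_of_partial (ζ : ClassGroup (𝓞 K) → ℂ → ℂ)
    (h1 : ∀ c, DifferentiableOn ℂ (ζ c) {1}ᶜ)
    (h2 : ∀ c, ∀ s : ℂ, 1 < s.re → HasSum
      (fun I : {I : (Ideal (𝓞 K))⁰ // ClassGroup.mk0 I = c} =>
        ((Ideal.absNorm (I.1 : Ideal (𝓞 K)) : ℕ) : ℂ) ^ (-s)) (ζ c s))
    (χ : ClassGroup (𝓞 K) →* ℂˣ) :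
    IsClassGroupL χ (fun s => ∑ c, ((χ c : ℂˣ) : ℂ) * ζ c s) := by
  classical
  refine ⟨?_, fun s hs => ?_⟩
  · exact DifferentiableOn.fun_sum fun c _ => (h1 c).const_mul _
  · have h3 : ∀ c ∈ (Finset.univ : Finset (ClassGroup (𝓞 K))),
        HasSum (fun I : (Ideal (𝓞 K))⁰ => ((χ c : ℂˣ) : ℂ) *
          Set.indicator {I : (Ideal (𝓞 K))⁰ | ClassGroup.mk0 I = c}
            (fun I => ((Ideal.absNorm (I : Ideal (𝓞 K)) : ℕ) : ℂ) ^ (-s)) I)
          (((χ c : ℂˣ) : ℂ) * ζ c s) := by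
      intro c _
      exact (hasSum_subtype_iff_indicator.1 (h2 c s hs)).mul_left _
    have h4 := hasSum_sum h3
    refine Eq.mpr (congrArg (fun g => HasSum g _) (funext fun I => ?_)) h4
    rw [Finset.sum_eq_single (ClassGroup.mk0 I)]
    · rw [Set.indicator_of_mem]
      exact rfl
    · intro c _ hc
      rw [Set.indicator_of_notMem, mul_zero]
      exact fun h => hc h.symm
    · simp

/-- **Main theorem.** -/
theorem main [IsTotallyComplex K] (h2 : finrank ℚ K = 2) :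
    (∀ χ : ClassGroup (𝓞 K) →* ℂˣ, ∃ L, IsClassGroupL χ L) ∧
    ∀ s : ℝ, 0 < s → s < 1 →
      (∀ c : ClassGroup (𝓞 K), c ≠ 1 → ∃ χ : ClassGroup (𝓞 K) →* ℂˣ, χ c ≠ 1 ∧
        ∀ L, IsClassGroupL χ L → 0 < (L (s : ℂ)).re) ∧
      Subgroup.closure {χ : ClassGroup (𝓞 K) →* ℂˣ |
        ∀ L, IsClassGroupL χ L → 0 < (L (s : ℂ)).re} = ⊤ := by
  obtain ⟨ζ, hd, hsum, hreal, hdiff⟩ := exists_partial (K := K) h2
  refine ⟨fun χ => ⟨_, isClassGroupL_of_partial ζ hd hsum χ⟩, fun s hs0 hs1 => ?_⟩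
  have key : ∀ c : ClassGroup (𝓞 K), c ≠ 1 → ∃ χ : ClassGroup (𝓞 K) →* ℂˣ, χ c ≠ 1 ∧
        ∀ L, IsClassGroupL χ L → 0 < (L (s : ℂ)).re := by
    intro c hc
    choose a ha using fun c => hreal c s
    have ha1 : ∀ c, c ≠ 1 → a c < a 1 := by
      intro d hd
      obtain ⟨x, hx0, hx⟩ := hdiff d hd s hs0
      rw [ha, ha] at hx
      have : a 1 - a d = x := by exact_mod_cast hx
      linarith
    obtain ⟨χ, hχ1, hχ2⟩ := exists_char a ha1 c hc
    refine ⟨χ, hχ1, fun L hL => ?_⟩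
    have hs : (s : ℂ) ≠ 1 := by
      intro h
      have : s = 1 := by exact_mod_cast h
      linarith
    rw [hL.unique (isClassGroupL_of_partial ζ hd hsum χ) hs]
    simp only [ha]
    exact hχ2
  refine ⟨key, ?_⟩
  set Φ := Subgroup.closure {χ : ClassGroup (𝓞 K) →* ℂˣ |
        ∀ L, IsClassGroupL χ L → 0 < (L (s : ℂ)).re} with hΦ
  have h3 : ∀ g : ClassGroup (𝓞 K), (∀ φ ∈ Φ, φ g = 1) → g = 1 := by
    intro g hg
    by_contra hne
    obtain ⟨χ, hχ1, hχ2⟩ := key g hne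
    exact hχ1 (hg χ (Subgroup.subset_closure hχ2))
  have h4 : (CommGroup.subgroupOrderIsoSubgroupMonoidHom (ClassGroup (𝓞 K)) ℂ).symm
      (OrderDual.toDual Φ) =
      (CommGroup.subgroupOrderIsoSubgroupMonoidHom (ClassGroup (𝓞 K)) ℂ).symm
      (OrderDual.toDual ⊤) := by
    ext g
    rw [CommGroup.mem_subgroupOrderIsoSubgroupMonoidHom_symm_iff,
      CommGroup.mem_subgroupOrderIsoSubgroupMonoidHom_symm_iff]
    constructor
    · intro h φ _
      rw [h3 g h, map_one]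
    · intro h φ _
      exact h φ (Subgroup.mem_top φ)
  have h5 := (CommGroup.subgroupOrderIsoSubgroupMonoidHom (ClassGroup (𝓞 K)) ℂ).symm.injective h4
  exact OrderDual.toDual.injective h5

end lfun

end Pool.Agent.H92.CG
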