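import Pool.Agent.H92.CG.Compare

/-!
# Mellin transform of the theta function of a binary form
-/

open Real Set Filter Asymptotics MeasureTheory

namespace Pool.Agent.H92.CG

theorem qf_nonneg {A : ℝ} (hA : 0 < A) (β : ℝ) (v : ℤ × ℤ) : 0 ≤ qf A β v := by
  unfold qf; positivity

theorem qf_eq_zero {A : ℝ} (hA : 0 < A) (β : ℝ) (v : ℤ × ℤ) : qf A β v = 0 ↔ v = 0 := by
  constructor
  · intro h
    obtain ⟨c, hc, hcq⟩ := qf_lower hA β
    have h1 := hcq v
    rw [h] at h1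
    have h2 : (v.1 : ℝ) ^ 2 + (v.2 : ℝ) ^ 2 ≤ 0 := by
      by_contra h3
      push Not at h3
      have := mul_pos hc h3
      linarith
    have h3 : (v.1 : ℝ) = 0 := by nlinarith [sq_nonneg (v.1 : ℝ), sq_nonneg (v.2 : ℝ)]
    have h4 : (v.2 : ℝ) = 0 := by nlinarith [sq_nonneg (v.1 : ℝ), sq_nonneg (v.2 : ℝ)]
    exact Prod.ext (by exact_mod_cast h3) (by exact_mod_cast h4)
  · rintro rfl
    simp [qf]

theorem Th_antitoneOn {A : ℝ} (hA : 0 < A) (β : ℝ) : AntitoneOn (Th A β) (Ioi 0) := by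
  intro x hx y hy hxy
  refine Summable.tsum_le_tsum (fun v => ?_) (summable_Th hA β hy) (summable_Th hA β hx)
  rw [exp_le_exp]
  have h1 : 0 ≤ π * qf A β v := mul_nonneg pi_pos.le (qf_nonneg hA β v)
  nlinarith

theorem Th_locInt {A : ℝ} (hA : 0 < A) (β : ℝ) :
    LocallyIntegrableOn (fun t => (Th A β t : ℂ)) (Ioi 0) := by
  rw [locallyIntegrableOn_iff (isOpen_Ioi.isLocallyClosed)]
  intro k hk hk2
  have h1 : IntegrableOn (Th A β) k := ((Th_antitoneOn hA β).mono hk).integrableOn_isCompact hk2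
  exact h1.ofReal

theorem one_le_Th {A t : ℝ} (hA : 0 < A) (β : ℝ) (ht : 0 < t) : 1 ≤ Th A β t := by
  have h := (summable_Th hA β ht).le_tsum (0 : ℤ × ℤ) (fun n _ => (exp_pos _).le)
  simpa [Th, qf] using h

theorem Th_sub_one_le {A : ℝ} (hA : 0 < A) (β : ℝ) :
    ∃ c K : ℝ, 0 < c ∧ 0 < K ∧ ∀ t : ℝ, 1 ≤ t → Th A β t - 1 ≤ K * exp (-c * t) := by
  obtain ⟨c, hc, hcq⟩ := qf_lower hA β
  set r₁ := exp (-π * c) with hr₁
  have hr₁0 : 0 < r₁ := exp_pos _
  have hr₁1 : r₁ < 1 := by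
    rw [hr₁, exp_lt_one_iff]
    have := mul_pos pi_pos hc
    linarith
  have hp : 0 < 1 - r₁ := by linarith
  refine ⟨π * c, 4 / (1 - r₁) + 4 / (1 - r₁) ^ 2, by positivity, by positivity, fun t ht => ?_⟩
  have ht0 : 0 < t := lt_of_lt_of_le one_pos ht
  have h1 : Th A β t ≤ th (t * c) * th (t * c) := by
    have hs := (summable_th (mul_pos ht0 hc))
    have h2 : th (t * c) * th (t * c) =
        ∑' v : ℤ × ℤ, exp (-π * (t * c) * (v.1 : ℝ) ^ 2) * exp (-π * (t * c) * (v.2 : ℝ) ^ 2) := by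
      unfold th
      exact hs.tsum_mul_tsum hs (hs.mul_of_nonneg hs (fun n => (exp_pos _).le)
        (fun n => (exp_pos _).le))
    rw [h2]
    refine Summable.tsum_le_tsum (fun v => ?_) (summable_Th hA β ht0)
      (hs.mul_of_nonneg hs (fun n => (exp_pos _).le) (fun n => (exp_pos _).le))
    rw [← exp_add, exp_le_exp]
    have h2 := mul_le_mul_of_nonneg_left (hcq v) (mul_pos pi_pos ht0).le
    nlinarith
  set r := exp (-π * (t * c)) with hr
  have hr0 : 0 < r := exp_pos _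
  have hrr : r ≤ r₁ := by
    rw [hr, hr₁, exp_le_exp]
    have := mul_pos pi_pos hc
    nlinarith
  have h2 : th (t * c) ≤ 1 + 2 * r / (1 - r₁) := by
    refine (th_le (mul_pos ht0 hc)).trans ?_
    rw [← hr]
    have h3 : (1 + r) / (1 - r) = 1 + 2 * r / (1 - r) := by
      have : 1 - r ≠ 0 := by linarith
      field_simp; ring
    rw [h3]
    gcongr
  have h3 : 0 < th (t * c) := lt_of_lt_of_le one_pos (one_le_th (mul_pos ht0 hc))
  have h4 : th (t * c) * th (t * c) ≤ (1 + 2 * r / (1 - r₁)) * (1 + 2 * r / (1 - r₁)) :=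
    mul_le_mul h2 h2 h3.le (by positivity)
  have h5 : (1 + 2 * r / (1 - r₁)) * (1 + 2 * r / (1 - r₁)) - 1 =
      (4 / (1 - r₁)) * r + (4 / (1 - r₁) ^ 2) * r * r := by
    field_simp; ring
  have h6 : exp (-(π * c) * t) = r := by rw [hr]; congr 1; ring
  rw [h6]
  have h7 : (4 / (1 - r₁) ^ 2) * r * r ≤ (4 / (1 - r₁) ^ 2) * r := by
    have : 0 ≤ (4 / (1 - r₁) ^ 2) * r := by positivity
    nlinarith
  have : (4 / (1 - r₁) + 4 / (1 - r₁) ^ 2) * r = (4 / (1 - r₁)) * r + (4 / (1 - r₁) ^ 2) * r := by ring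
  linarith

theorem Th_decay {A : ℝ} (hA : 0 < A) (β r : ℝ) :
    (fun t => (Th A β t : ℂ) - 1) =O[atTop] (fun t : ℝ => t ^ r) := by
  obtain ⟨c, K, hc, hK, h⟩ := Th_sub_one_le hA β
  have h1 : (fun t => (Th A β t : ℂ) - 1) =O[atTop] (fun t : ℝ => exp (-c * t)) := by
    refine IsBigO.of_bound K ?_
    filter_upwards [eventually_ge_atTop 1] with t ht
    have h2 := h t ht
    have h3 := one_le_Th hA β (lt_of_lt_of_le one_pos ht)
    have h4 : ((Th A β t : ℂ) - 1) = ((Th A β t - 1 : ℝ) : ℂ) := by push_cast; rfl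
    rw [h4, Complex.norm_real, Real.norm_of_nonneg (by linarith), Real.norm_of_nonneg (exp_pos _).le]
    exact h2
  exact h1.trans (isLittleO_exp_neg_mul_rpow_atTop hc r).isBigO

/-- The pair of functions attached to the form. -/
noncomputable def pair {A : ℝ} (hA : 0 < A) (β : ℝ) : WeakFEPair ℂ where
  f := fun t => (Th A β t : ℂ)
  g := fun t => (Th A β t : ℂ)
  k := 1
  ε := 1
  f₀ := 1
  g₀ := 1
  hf_int := Th_locInt hA β
  hg_int := Th_locInt hA β
  hk := one_pos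
  hε := one_ne_zero
  h_feq := by
    intro x hx
    rw [Th_feq hA β hx]
    simp
  hf_top := Th_decay hA β
  hg_top := Th_decay hA β

theorem summable_qf {A : ℝ} (hA : 0 < A) (β : ℝ) {σ : ℝ} (hσ : 1 < σ) :
    Summable fun v : ℤ × ℤ => 1 / (qf A β v) ^ σ := by
  obtain ⟨c, hc, hcq⟩ := qf_lower hA β
  have h1 := EisensteinSeries.summable_one_div_norm_rpow (k := 2 * σ) (by linarith)
  have h2 : Summable fun v : ℤ × ℤ => ‖(![v.1, v.2] : Fin 2 → ℤ)‖ ^ (-(2 * σ)) :=
    (finTwoArrowEquiv ℤ).symm.summable_iff.2 h1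
  refine Summable.of_nonneg_of_le (fun v => ?_) (fun v => ?_) (h2.mul_left (c ^ (-σ)))
  · have := qf_nonneg hA β v; positivity
  · rcases eq_or_ne v 0 with rfl | hv
    · rw [(qf_eq_zero hA β 0).2 rfl, zero_rpow (by linarith), div_zero]
      positivity
    · set N : ℝ := ‖(![v.1, v.2] : Fin 2 → ℤ)‖ with hN
      have hN0 : 0 < N := by
        rw [hN, norm_pos_iff]
        intro h
        apply hv
        have h0 := congrFun h 0
        have h1 := congrFun h 1
        simp at h0 h1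
        exact Prod.ext h0 h1
      have hN2 : N ^ 2 ≤ (v.1 : ℝ) ^ 2 + (v.2 : ℝ) ^ 2 := by
        have h3 : N ≤ max |(v.1 : ℝ)| |(v.2 : ℝ)| := by
          rw [hN, pi_norm_le_iff_of_nonneg (le_max_of_le_left (abs_nonneg _))]
          intro i
          fin_cases i
          · simp [Int.norm_eq_abs]
          · simp [Int.norm_eq_abs]
        rcases le_total |(v.1 : ℝ)| |(v.2 : ℝ)| with h | h
        · rw [max_eq_right h] at h3
          have : N ^ 2 ≤ |(v.2 : ℝ)| ^ 2 := by gcongr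
          rw [sq_abs] at this
          nlinarith [sq_nonneg (v.1 : ℝ)]
        · rw [max_eq_left h] at h3
          have : N ^ 2 ≤ |(v.1 : ℝ)| ^ 2 := by gcongr
          rw [sq_abs] at this
          nlinarith [sq_nonneg (v.2 : ℝ)]
      have h4 : c * N ^ 2 ≤ qf A β v := le_trans (by gcongr) (hcq v)
      have h5 : (c * N ^ 2) ^ σ ≤ (qf A β v) ^ σ := by gcongr
      have h6 : (c * N ^ 2) ^ σ = (c ^ (-σ) * N ^ (-(2 * σ)))⁻¹ := by
        rw [mul_rpow hc.le (by positivity), ← rpow_natCast N 2, ← rpow_mul hN0.le, rpow_neg hc.le,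
          rpow_neg hN0.le, mul_inv, inv_inv, inv_inv]
        norm_num
      rw [h6] at h5
      rw [one_div]
      have h7 : 0 < c ^ (-σ) * N ^ (-(2 * σ)) := by positivity
      calc (qf A β v ^ σ)⁻¹ ≤ ((c ^ (-σ) * N ^ (-(2 * σ)))⁻¹)⁻¹ := by
            apply inv_anti₀ _ h5
            positivity
        _ = _ := inv_inv _

/-- Mellin transform for `Re s > 1`. -/
theorem hasSum_Lam {A : ℝ} (hA : 0 < A) (β : ℝ) {s : ℂ} (hs : 1 < s.re) :
    HasSum (fun v : ℤ × ℤ => (π : ℂ) ^ (-s) * Complex.Gamma s * 1 / (qf A β v : ℂ) ^ s)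
      ((pair hA β).Λ s) := by
  have h1 := (pair hA β).hasMellin (s := s) (by simpa [pair] using hs)
  rw [← h1.2]
  refine hasSum_mellin_pi_mul₀ (a := fun _ => 1) (fun v => qf_nonneg hA β v) (by linarith)
    (fun t ht => ?_) ?_
  · have h2 : HasSum (fun v : ℤ × ℤ => (rexp (-π * t * qf A β v) : ℂ)) (Th A β t : ℂ) := by
      have := (Complex.ofRealCLM.hasSum (summable_Th hA β ht).hasSum)
      simpa [Th] using this
    have h3 : HasSum (fun v : ℤ × ℤ => if v = 0 then (1 : ℂ) else 0) 1 := by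
      have := hasSum_ite_eq (0 : ℤ × ℤ) (1 : ℂ)
      simpa using this
    have h4 := h2.sub h3
    have h5 : (fun v : ℤ × ℤ => if qf A β v = 0 then (0 : ℂ) else 1 * (rexp (-π * qf A β v * t) : ℂ)) =
        fun v : ℤ × ℤ => (rexp (-π * t * qf A β v) : ℂ) - if v = 0 then (1 : ℂ) else 0 := by
      funext v
      by_cases hv : v = 0
      · rw [if_pos ((qf_eq_zero hA β v).2 hv), if_pos hv, (qf_eq_zero hA β v).2 hv]
        simp
      · rw [if_neg (fun h => hv ((qf_eq_zero hA β v).1 h)), if_neg hv, sub_zero, one_mul]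
        congr 2
        ring
    rw [h5]
    exact h4
  · simpa using summable_qf hA β hs

end Pool.Agent.H92.CG
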