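import Pool.Agent.H92.CG.LFun

/-!
# Non-vanishing class group `L`-functions of imaginary quadratic fields detect every ideal class

Let `K` be an imaginary quadratic field. For every ideal class `c ≠ 1` and every real
`s` with `0 < s < 1` (in particular `s = 1/2`) there is a class group character `χ` with
`χ(c) ≠ 1` and `Re L_K(s, χ) > 0`.

Proof: for `c ≠ 1` the completed partial zeta function of the principal class is larger on
`(0,1)` than the one of `c`, because the theta function of the principal form is, on
`t ≥ 1`, larger than the one of a reduced form with first coefficient at least `2`.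
Then orthogonality of characters.
-/

open NumberField Pool.Agent.H92.CG

namespace Pool.Agent.Results.MP_3b6604_nt.ClassGroupFaithful

theorem result (K : Type*) [Field K] [NumberField K] [IsTotallyComplex K]
    (hK : Module.finrank ℚ K = 2) :
    (∀ χ : ClassGroup (𝓞 K) →* ℂˣ, ∃ L : ℂ → ℂ, IsClassGroupL χ L) ∧
    ∀ s : ℝ, 0 < s → s < 1 → ∀ c : ClassGroup (𝓞 K), c ≠ 1 →
      ∃ χ : ClassGroup (𝓞 K) →* ℂˣ, χ c ≠ 1 ∧
        ∀ L : ℂ → ℂ, IsClassGroupL χ L → 0 < (L (s : ℂ)).re :=
  ⟨(main hK).1, fun s h0 h1 => ((main hK).2 s h0 h1).1⟩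

end Pool.Agent.Results.MP_3b6604_nt.ClassGroupFaithful
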