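import Pool.Agent.H92.CG.Partial

/-!
# Comparison of the partial zeta functions of the ideal classes
-/

open NumberField Module
open scoped nonZeroDivisors

namespace Pool.Agent.H92.CG

section classes

variable {K : Type*} [Field K] [NumberField K]

theorem D_pos : 0 < √|((discr K : ℤ) : ℝ)| := by
  apply Real.sqrt_pos.2
  rw [abs_pos]
  exact_mod_cast discr_ne_zero K

theorem Th_ideal_lt (σ : K →+* ℂ) {A β A' β' : ℝ} (hA : 0 < A)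
    (hA2 : 3 * A ^ 2 ≤ 4) (hA4 : 4 / √|((discr K : ℤ) : ℝ)| ≤ A) (hA' : 0 < A')
    (E' : ℤ × ℤ ≃ (⊤ : Ideal (𝓞 K)))
    (hE' : ∀ v, 2 * ‖σ (E' v : 𝓞 K)‖ ^ 2 /
      ((Ideal.absNorm (⊤ : Ideal (𝓞 K)) : ℝ) * √|((discr K : ℤ) : ℝ)|) = qf A' β' v)
    {t : ℝ} (ht : 1 ≤ t) : Th A β t < Th A' β' t := by
  have hDpos := D_pos (K := K)
  set D : ℝ := √|((discr K : ℤ) : ℝ)| with hD
  have ht0 : 0 < t := lt_of_lt_of_le one_pos ht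
  have h1 := Th_lt hA hA2 β ht (A₁ := 2 / D) (by positivity) (by
    have : 4 / D = 2 * (2 / D) := by ring
    linarith)
  refine lt_of_lt_of_le h1 ?_
  refine Summable.tsum_le_tsum_of_inj (fun n : ℤ => E'.symm ⟨(n : 𝓞 K), Submodule.mem_top⟩) ?_
    (fun _ _ => (Real.exp_pos _).le) (fun n => ?_) (summable_th (by positivity))
    (summable_Th hA' β' ht0)
  · intro m n h
    have h2 := E'.symm.injective h
    have h3 : (m : 𝓞 K) = (n : 𝓞 K) := congrArg Subtype.val h2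
    exact_mod_cast h3
  · rw [Real.exp_le_exp, ← hE', Equiv.apply_symm_apply]
    have h4 : ‖σ (((n : ℤ) : 𝓞 K) : K)‖ ^ 2 = (n : ℝ) ^ 2 := by
      simp [sq_abs]
    change -Real.pi * (t * (2 / D)) * (n : ℝ) ^ 2 ≤ -Real.pi * t *
      (2 * ‖σ (((n : ℤ) : 𝓞 K) : K)‖ ^ 2 / ((Ideal.absNorm (⊤ : Ideal (𝓞 K)) : ℝ) * D))
    rw [h4, Ideal.absNorm_top]
    apply le_of_eq
    push_cast
    field_simp

theorem Zc_real {A : ℝ} (hA : 0 < A) (β : ℝ) {D : ℝ} (hD : 0 < D) (w : ℝ) (s : ℝ) :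
    ∃ x : ℝ, Zc hA β D w (s : ℂ) = (x : ℂ) := by
  obtain ⟨y, hy⟩ := Lam0_real hA β s
  refine ⟨w⁻¹ * (2 * Real.pi / D) ^ s * (y * (Real.Gamma s)⁻¹ - (Real.Gamma (s + 1))⁻¹ -
    (1 - s)⁻¹ * (Real.Gamma s)⁻¹), ?_⟩
  unfold Zc
  rw [hy]
  have h1 : ((2 * Real.pi / D : ℝ) : ℂ) ^ (s : ℂ) = (((2 * Real.pi / D) ^ s : ℝ) : ℂ) :=
    (Complex.ofReal_cpow (by positivity) s).symm
  rw [h1, show ((s : ℂ) + 1) = ((s + 1 : ℝ) : ℂ) by push_cast; rfl, Complex.Gamma_ofReal,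
    Complex.Gamma_ofReal]
  push_cast
  rfl

theorem Zc_diff {A A' : ℝ} (hA : 0 < A) (hA' : 0 < A') (β β' : ℝ) {D : ℝ} (hD : 0 < D) {w : ℝ}
    (hw : 0 < w) (hlt : ∀ t : ℝ, 1 ≤ t → Th A β t < Th A' β' t) {s : ℝ} (hs : 0 < s) :
    ∃ x : ℝ, 0 < x ∧ Zc hA' β' D w (s : ℂ) - Zc hA β D w (s : ℂ) = (x : ℂ) := by
  obtain ⟨y, hy0, hy⟩ := Lam0_diff hA hA' β β' hlt s
  refine ⟨w⁻¹ * (2 * Real.pi / D) ^ s * (y * (Real.Gamma s)⁻¹), ?_, ?_⟩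
  · have := Real.Gamma_pos_of_pos hs
    have : 0 < (2 * Real.pi / D) ^ s := Real.rpow_pos_of_pos (by positivity) _
    positivity
  · unfold Zc
    have h1 : ((2 * Real.pi / D : ℝ) : ℂ) ^ (s : ℂ) = (((2 * Real.pi / D) ^ s : ℝ) : ℂ) :=
      (Complex.ofReal_cpow (by positivity) s).symm
    rw [h1]
    push_cast
    rw [← Complex.Gamma_ofReal, ← hy]
    ring

/-- The partial zeta functions, their continuation, and their comparison on `(0, ∞)`. -/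
theorem exists_partial [IsTotallyComplex K] (h2 : finrank ℚ K = 2) :
    ∃ ζ : ClassGroup (𝓞 K) → ℂ → ℂ,
      (∀ c, DifferentiableOn ℂ (ζ c) {1}ᶜ) ∧
      (∀ c, ∀ s : ℂ, 1 < s.re → HasSum (fun I : {I : (Ideal (𝓞 K))⁰ // ClassGroup.mk0 I = c} =>
        ((Ideal.absNorm (I.1 : Ideal (𝓞 K)) : ℕ) : ℂ) ^ (-s)) (ζ c s)) ∧
      (∀ c, ∀ s : ℝ, ∃ x : ℝ, ζ c (s : ℂ) = (x : ℂ)) ∧
      (∀ c, c ≠ 1 → ∀ s : ℝ, 0 < s → ∃ x : ℝ, 0 < x ∧ ζ 1 (s : ℂ) - ζ c (s : ℂ) = (x : ℂ)) := by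
  classical
  obtain ⟨σ⟩ : Nonempty (K →+* ℂ) := inferInstance
  have hfin := units_finite (K := K) h2
  have hDpos := D_pos (K := K)
  have hw : 0 < ((Nat.card (𝓞 K)ˣ : ℕ) : ℝ) := by
    exact_mod_cast Nat.card_pos
  have hdata : ∀ c : ClassGroup (𝓞 K), ∃ (J : (Ideal (𝓞 K))⁰) (A β : ℝ)
      (E : ℤ × ℤ ≃ (J : Ideal (𝓞 K))), ClassGroup.mk0 J = c⁻¹ ∧
      (c = 1 → (J : Ideal (𝓞 K)) = ⊤) ∧ 0 < A ∧ 3 * A ^ 2 ≤ 4 ∧
      (∀ v, 2 * ‖σ (E v : 𝓞 K)‖ ^ 2 /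
        ((Ideal.absNorm (J : Ideal (𝓞 K)) : ℝ) * √|((discr K : ℤ) : ℝ)|) = qf A β v) ∧
      (c ≠ 1 → 4 / √|((discr K : ℤ) : ℝ)| ≤ A) := by
    intro c
    obtain ⟨J, hJ, hJ1⟩ : ∃ J : (Ideal (𝓞 K))⁰, ClassGroup.mk0 J = c⁻¹ ∧
        (c = 1 → (J : Ideal (𝓞 K)) = ⊤) := by
      by_cases hc : c = 1
      · refine ⟨1, by rw [hc]; simp, fun _ => ?_⟩
        simp
      · obtain ⟨J, hJ⟩ := ClassGroup.mk0_surjective c⁻¹
        exact ⟨J, hJ, fun h => absurd h hc⟩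
    obtain ⟨A, β, E, h3, h4, h5, -, h6⟩ :=
      exists_form h2 σ (J : Ideal (𝓞 K)) (nonZeroDivisors.coe_ne_zero J)
    refine ⟨J, A, β, E, hJ, hJ1, h3, h4, h5, fun hc => h6 fun hp => hc ?_⟩
    have h7 : ClassGroup.mk0 J = 1 := (ClassGroup.mk0_eq_one_iff J.2).2 hp
    rw [hJ, inv_eq_one] at h7
    exact h7
  choose J A β E hJ hJ1 hA hA2 hE hA4 using hdata
  refine ⟨fun c => Zc (hA c) (β c) (√|((discr K : ℤ) : ℝ)|) (Nat.card (𝓞 K)ˣ), fun c => ?_,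
    fun c s hs => ?_, fun c s => ?_, fun c hc s hs => ?_⟩
  · exact Zc_differentiableOn (hA c) (β c) hDpos _
  · exact Zc_hasSum h2 σ c (J c) (hJ c) (hA c) (E c) (hE c) hs
  · exact Zc_real (hA c) (β c) hDpos _ s
  · refine Zc_diff (hA c) (hA 1) (β c) (β 1) hDpos hw (fun t ht => ?_) hs
    have h1 : ∀ (J' : Ideal (𝓞 K)) (_ : J' = ⊤) (E' : ℤ × ℤ ≃ J')
        (_ : ∀ v, 2 * ‖σ (E' v : 𝓞 K)‖ ^ 2 /
          ((Ideal.absNorm J' : ℝ) * √|((discr K : ℤ) : ℝ)|) = qf (A 1) (β 1) v),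
        Th (A c) (β c) t < Th (A 1) (β 1) t := by
      rintro J' rfl E' hE'
      exact Th_ideal_lt σ (hA c) (hA2 c) (hA4 c hc) (hA 1) E' hE' ht
    exact h1 _ (hJ1 1 rfl) (E 1) (hE 1)

end classes

end Pool.Agent.H92.CG
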