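import Pool.Agent.H92.CG.Theta

/-!
# Comparison of theta functions of binary forms
-/

open Real

namespace Pool.Agent.H92.CG

theorem one_le_th {u : ℝ} (hu : 0 < u) : 1 ≤ th u := by
  have h := (summable_th hu).le_tsum (0 : ℤ) (fun n _ => (exp_pos _).le)
  simpa [th] using h

theorem th_le {u : ℝ} (hu : 0 < u) :
    th u ≤ (1 + exp (-π * u)) / (1 - exp (-π * u)) := by
  set r := exp (-π * u) with hr
  have hr0 : 0 < r := exp_pos _
  have hr1 : r < 1 := by
    rw [hr, exp_lt_one_iff]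
    have := mul_pos pi_pos hu
    linarith
  have hsum : HasSum (fun n : ℤ => r ^ n.natAbs) ((1 - r)⁻¹ + (1 - r)⁻¹ - 1) := by
    have h1 : HasSum (fun n : ℕ => r ^ ((n : ℤ)).natAbs) ((1 - r)⁻¹) := by
      simpa using hasSum_geometric_of_lt_one hr0.le hr1
    have h2 : HasSum (fun n : ℕ => r ^ (-(n : ℤ)).natAbs) ((1 - r)⁻¹) := by
      simpa using hasSum_geometric_of_lt_one hr0.le hr1
    have h3 := HasSum.of_nat_of_neg (f := fun n : ℤ => r ^ n.natAbs) h1 h2
    simpa using h3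
  have hle : th u ≤ ∑' n : ℤ, r ^ n.natAbs := by
    refine Summable.tsum_le_tsum (fun n => ?_) (summable_th hu) hsum.summable
    rw [hr, ← exp_nat_mul, exp_le_exp]
    have h1 : (n.natAbs : ℝ) ≤ (n : ℝ) ^ 2 := by
      have h2 : (n.natAbs : ℝ) = |(n : ℝ)| := by
        rw [Nat.cast_natAbs, Int.cast_abs]
      rw [h2, ← sq_abs]
      have h3 : (n : ℝ) = 0 ∨ 1 ≤ |(n : ℝ)| := by
        rcases eq_or_ne n 0 with h | h
        · left; simp [h]
        · right
          have := Int.one_le_abs h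
          exact_mod_cast this
      rcases h3 with h3 | h3
      · simp [h3]
      · nlinarith
    have h2 : 0 < π * u := mul_pos pi_pos hu
    nlinarith
  rw [hsum.tsum_eq] at hle
  refine hle.trans (le_of_eq ?_)
  have : (1 - r) ≠ 0 := by linarith
  field_simp
  ring

theorem le_th {u : ℝ} (hu : 0 < u) : 1 + 2 * exp (-π * u) ≤ th u := by
  have h := (summable_th hu).sum_le_tsum ({0, 1, -1} : Finset ℤ) (fun n _ => (exp_pos _).le)
  rw [Finset.sum_insert (by decide), Finset.sum_insert (by decide), Finset.sum_singleton] at h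
  simp only [Int.cast_zero, Int.cast_one, Int.cast_neg] at h
  have h2 : exp (-π * u * (0 : ℝ) ^ 2) = 1 := by simp
  have h3 : (-1 : ℝ) ^ 2 = 1 := by norm_num
  have h4 : (1 : ℝ) ^ 2 = 1 := by norm_num
  rw [h2, h3, h4, mul_one] at h
  unfold th
  linarith

theorem th_anti {u v : ℝ} (hu : 0 < u) (huv : u ≤ v) : th v ≤ th u := by
  refine Summable.tsum_le_tsum (fun n => ?_) (summable_th (hu.trans_le huv)) (summable_th hu)
  rw [exp_le_exp]
  have h1 : 0 ≤ π * (n : ℝ) ^ 2 := by positivity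
  nlinarith

theorem th_feq {u : ℝ} (hu : 0 < u) : th u = 1 / sqrt u * th (1 / u) := by
  have h := Real.tsum_exp_neg_mul_int_sq hu
  unfold th
  rw [h, sqrt_eq_rpow]
  congr 1
  refine tsum_congr fun n => ?_
  congr 1
  ring

theorem exp_pi_quarter : exp (-(π / 4)) < 1 / 2 := by
  rw [show (1 / 2 : ℝ) = exp (-(Real.log 2)) by rw [exp_neg, exp_log (by norm_num)]; norm_num]
  rw [exp_lt_exp, neg_lt_neg_iff]
  have h1 := Real.log_two_lt_d9
  have h2 := Real.pi_gt_three
  linarith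

theorem frac_mono {y z : ℝ} (hyz : y ≤ z) (hz : z < 1) :
    (1 + y) / (1 - y) ≤ (1 + z) / (1 - z) := by
  rw [div_le_div_iff₀ (by linarith) (by linarith)]
  nlinarith

/-- The one variable inequality. -/
theorem th_mul_lt {u v : ℝ} (hu : 0 < u) (huv : 1 ≤ u * v) (hv : 3 / 4 * u ≤ v) :
    th u * th v < th (u / 2) := by
  have hv0 : 0 < v := by
    by_contra h
    nlinarith
  rcases le_total u 1 with hu1 | hu1
  · -- small `u`
    have hv1 : 1 ≤ v := by nlinarith
    have h1 : th u ≤ 1 / sqrt u * th 1 := by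
      rw [th_feq hu]
      refine mul_le_mul_of_nonneg_left (th_anti one_pos ?_) (by positivity)
      rw [le_div_iff₀ hu]; linarith
    have h2 : th v ≤ th 1 := th_anti one_pos hv1
    have h3 : 1 / sqrt (u / 2) ≤ th (u / 2) := by
      rw [th_feq (by positivity : 0 < u / 2)]
      have := one_le_th (u := 1 / (u / 2)) (by positivity)
      have h4 : 0 ≤ 1 / sqrt (u / 2) := by positivity
      nlinarith
    have h5 : th 1 ≤ 17 / 15 := by
      refine (th_le one_pos).trans ?_
      have h6 : exp (-π * 1) < 1 / 16 := by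
        have h7 : exp (-π * 1) = exp (-(π / 4)) ^ 4 := by
          rw [← exp_nat_mul]; congr 1; push_cast; ring
        rw [h7]
        have h8 := exp_pi_quarter
        have h9 := exp_pos (-(π / 4))
        calc exp (-(π / 4)) ^ 4 < (1 / 2) ^ 4 := by gcongr
          _ = 1 / 16 := by norm_num
      refine (frac_mono h6.le (by norm_num)).trans (by norm_num)
    have h10 : 0 < th 1 := lt_of_lt_of_le one_pos (one_le_th one_pos)
    have h11 : 0 < th v := lt_of_lt_of_le one_pos (one_le_th hv0)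
    have hsu : 0 < sqrt u := sqrt_pos.2 hu
    have h12 : th u * th v ≤ 1 / sqrt u * (17 / 15 * (17 / 15)) := by
      calc th u * th v ≤ (1 / sqrt u * th 1) * th 1 := by
            apply mul_le_mul h1 h2 h11.le
            positivity
        _ ≤ 1 / sqrt u * (17 / 15 * (17 / 15)) := by
            rw [mul_assoc]
            apply mul_le_mul_of_nonneg_left _ (by positivity)
            nlinarith
    have h13 : sqrt (u / 2) = sqrt u / sqrt 2 := by rw [sqrt_div hu.le]
    rw [h13, one_div_div] at h3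
    have h14 : (17 / 15 : ℝ) * (17 / 15) < sqrt 2 := by
      rw [lt_sqrt (by norm_num)]; norm_num
    refine h12.trans_lt (lt_of_lt_of_le ?_ h3)
    rw [one_div, ← div_eq_inv_mul]
    exact div_lt_div_of_pos_right h14 hsu
  · -- large `u`
    set z := exp (-(π * u / 4)) with hz
    have hz0 : 0 < z := exp_pos _
    have hz1 : z < 1 / 2 := by
      refine lt_of_le_of_lt ?_ exp_pi_quarter
      rw [hz, exp_le_exp]
      have := pi_pos
      nlinarith
    have e1 : exp (-π * u) = z ^ 4 := by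
      rw [hz, ← exp_nat_mul]; congr 1; push_cast; ring
    have e2 : exp (-π * (u / 2)) = z ^ 2 := by
      rw [hz, ← exp_nat_mul]; congr 1; push_cast; ring
    have e3 : exp (-π * v) ≤ z ^ 3 := by
      rw [hz, ← exp_nat_mul, exp_le_exp]; push_cast
      have := pi_pos
      nlinarith
    have h1 : th u ≤ (1 + z ^ 4) / (1 - z ^ 4) := by
      have := th_le hu; rwa [e1] at this
    have hz3 : z ^ 3 < 1 := by
      calc z ^ 3 < (1 / 2) ^ 3 := by gcongr
        _ < 1 := by norm_num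
    have hz4 : z ^ 4 < 1 := by
      calc z ^ 4 < (1 / 2) ^ 4 := by gcongr
        _ < 1 := by norm_num
    have h2 : th v ≤ (1 + z ^ 3) / (1 - z ^ 3) := (th_le hv0).trans (frac_mono e3 hz3)
    have h3 : 1 + 2 * z ^ 2 ≤ th (u / 2) := by
      have := le_th (u := u / 2) (by positivity); rwa [e2] at this
    have h11 : 0 < th v := lt_of_lt_of_le one_pos (one_le_th hv0)
    have hp4 : 0 < 1 - z ^ 4 := by linarith
    have hp3 : 0 < 1 - z ^ 3 := by linarith
    refine lt_of_le_of_lt (mul_le_mul h1 h2 h11.le (by positivity)) (lt_of_lt_of_le ?_ h3)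
    rw [div_mul_div_comm, div_lt_iff₀ (by positivity)]
    have key : 0 < 1 - z - z ^ 2 - z ^ 3 - z ^ 4 + z ^ 7 := by
      have a2 : z ^ 2 < 1 / 4 := by
        calc z ^ 2 < (1 / 2) ^ 2 := by gcongr
          _ = 1 / 4 := by norm_num
      have a3 : z ^ 3 < 1 / 8 := by
        calc z ^ 3 < (1 / 2) ^ 3 := by gcongr
          _ = 1 / 8 := by norm_num
      have a4 : z ^ 4 < 1 / 16 := by
        calc z ^ 4 < (1 / 2) ^ 4 := by gcongr
          _ = 1 / 16 := by norm_num
      have a7 : 0 < z ^ 7 := by positivity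
      linarith
    have key2 : 0 < 2 * z ^ 2 * (1 - z - z ^ 2 - z ^ 3 - z ^ 4 + z ^ 7) := by positivity
    nlinarith [key2]

open Complex in
/-- A shifted Gaussian sum is at most the unshifted one. -/
theorem shifted_le {a : ℝ} (ha : 0 < a) (x : ℝ) :
    (∑' m : ℤ, rexp (-π * a * ((m : ℝ) + x) ^ 2)) ≤ th a := by
  have h1 := poisson_shift ha x
  have h0 := poisson_shift ha 0
  have hs : Summable fun k : ℤ => rexp (-π * (1 / a) * (k : ℝ) ^ 2) := summable_th (by positivity)
  have e1 : ((∑' m : ℤ, rexp (-π * a * ((m : ℝ) + x) ^ 2) : ℝ) : ℂ) =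
      ∑' m : ℤ, cexp (-π * a * ((m : ℂ) + x) ^ 2) := by
    rw [Complex.ofReal_tsum]
    refine tsum_congr fun m => ?_
    push_cast
    rfl
  have e0 : ((th a : ℝ) : ℂ) = ∑' m : ℤ, cexp (-π * a * ((m : ℂ) + (0 : ℝ)) ^ 2) := by
    rw [th, Complex.ofReal_tsum]
    refine tsum_congr fun m => ?_
    push_cast
    rw [add_zero]
  have e2 : ∑' k : ℤ, cexp (-π / a * (k : ℂ) ^ 2 + 2 * π * (I * (0 : ℝ)) * k) =
      ((∑' k : ℤ, rexp (-π * (1 / a) * (k : ℝ) ^ 2) : ℝ) : ℂ) := by
    rw [Complex.ofReal_tsum]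
    refine tsum_congr fun k => ?_
    push_cast
    congr 1
    ring
  have e3 : ‖∑' k : ℤ, cexp (-π / a * (k : ℂ) ^ 2 + 2 * π * (I * x) * k)‖ ≤
      ∑' k : ℤ, rexp (-π * (1 / a) * (k : ℝ) ^ 2) := by
    refine tsum_of_norm_bounded hs.hasSum (fun k => ?_)
    rw [Complex.norm_exp]
    have : (-π / a * (k : ℂ) ^ 2 + 2 * π * (I * x) * k : ℂ) =
        ((-π * (1 / a) * (k : ℝ) ^ 2 : ℝ) : ℂ) + ((2 * π * x * k : ℝ) : ℂ) * I := by
      push_cast; ring
    rw [this]
    simp only [Complex.add_re, Complex.ofReal_re, Complex.mul_I_re, Complex.ofReal_im, neg_zero,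
        add_zero]
    exact le_rfl
  have h2 : ‖((∑' m : ℤ, rexp (-π * a * ((m : ℝ) + x) ^ 2) : ℝ) : ℂ)‖ ≤ ‖((th a : ℝ) : ℂ)‖ := by
    rw [e1, h1, e0, h0, e2, norm_mul, norm_mul]
    apply mul_le_mul_of_nonneg_left _ (norm_nonneg _)
    rw [Complex.norm_real, Real.norm_of_nonneg (tsum_nonneg fun _ => (Real.exp_pos _).le)]
    exact e3
  rw [Complex.norm_real, Complex.norm_real, Real.norm_of_nonneg (tsum_nonneg fun _ => (Real.exp_pos _).le),
    Real.norm_of_nonneg (le_trans zero_le_one (one_le_th ha))] at h2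
  exact h2

theorem summable_shifted {a : ℝ} (ha : 0 < a) (x : ℝ) :
    Summable fun m : ℤ => rexp (-π * a * ((m : ℝ) + x) ^ 2) := by
  have h := (summable_Th (A := a) (t := 1) ha x one_pos)
  have h2 : Summable fun v : ℤ × ℤ => rexp (-π * 1 * qf a x (v.2, v.1)) :=
    (Equiv.prodComm ℤ ℤ).summable_iff.2 h
  have h3 := h2.prod_factor 1
  have h4 : (fun m : ℤ => rexp (-π * a * ((m : ℝ) + x) ^ 2)) =
      fun m : ℤ => rexp (π / a) * rexp (-π * 1 * qf a x (m, 1)) := by
    funext m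
    rw [← Real.exp_add]
    congr 1
    unfold qf
    push_cast
    field_simp
    ring
  rw [h4]
  exact h3.mul_left _

theorem Th_le_mul {A t : ℝ} (hA : 0 < A) (β : ℝ) (ht : 0 < t) :
    Th A β t ≤ th (t * A) * th (t / A) := by
  have h1 := summable_Th hA β ht
  have h2 : Summable fun v : ℤ × ℤ => rexp (-π * t * qf A β (v.2, v.1)) :=
    (Equiv.prodComm ℤ ℤ).summable_iff.2 h1
  have h3 : Th A β t = ∑' n : ℤ, ∑' m : ℤ, rexp (-π * t * qf A β (m, n)) := by
    rw [← h2.tsum_prod, Th, ← (Equiv.prodComm ℤ ℤ).tsum_eq]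
    rfl
  have h4 : ∀ n : ℤ, ∑' m : ℤ, rexp (-π * t * qf A β (m, n)) =
      rexp (-π * (t / A) * (n : ℝ) ^ 2) * ∑' m : ℤ, rexp (-π * (t * A) * ((m : ℝ) + β * n) ^ 2) := by
    intro n
    rw [← tsum_mul_left]
    refine tsum_congr fun m => ?_
    rw [← Real.exp_add]
    congr 1
    unfold qf
    push_cast
    field_simp
    ring
  have h5 : th (t * A) * th (t / A) =
      ∑' n : ℤ, rexp (-π * (t / A) * (n : ℝ) ^ 2) * th (t * A) := by
    rw [tsum_mul_right, mul_comm]
    rfl
  rw [h3, h5]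
  refine Summable.tsum_le_tsum (fun n => ?_) ?_ ?_
  · rw [h4]
    exact mul_le_mul_of_nonneg_left (shifted_le (by positivity) _) (Real.exp_pos _).le
  · exact h2.prod
  · exact (summable_th (div_pos ht hA)).mul_right _

/-- The comparison theorem. -/
theorem Th_lt {A t : ℝ} (hA : 0 < A) (hA2 : 3 * A ^ 2 ≤ 4) (β : ℝ) (ht : 1 ≤ t) {A₁ : ℝ}
    (hA₁ : 0 < A₁) (hA₁' : A₁ ≤ A / 2) : Th A β t < th (t * A₁) := by
  have ht0 : 0 < t := lt_of_lt_of_le one_pos ht
  refine lt_of_le_of_lt (Th_le_mul hA β ht0) (lt_of_lt_of_le (th_mul_lt (mul_pos ht0 hA) ?_ ?_)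
    (th_anti (mul_pos ht0 hA₁) ?_))
  · have : t * A * (t / A) = t ^ 2 := by field_simp
    rw [this]; nlinarith
  · rw [le_div_iff₀ hA]
    nlinarith
  · nlinarith

end Pool.Agent.H92.CG
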