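import Pool.Agent.H92.CG.RealLine

/-!
# Imaginary quadratic fields: norm forms of ideals
-/

open NumberField Module

namespace Pool.Agent.H92.CG

section basics

variable {K : Type*} [Field K] [NumberField K] [IsTotallyComplex K]

theorem univ_eq (h2 : finrank ℚ K = 2) (σ : K →+* ℂ) [DecidableEq (K →ₐ[ℚ] ℂ)] :
    (Finset.univ : Finset (K →ₐ[ℚ] ℂ)) =
      {σ.toRatAlgHom, (ComplexEmbedding.conjugate σ).toRatAlgHom} ∧
      σ.toRatAlgHom ≠ (ComplexEmbedding.conjugate σ).toRatAlgHom := by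
  have hne : σ.toRatAlgHom ≠ (ComplexEmbedding.conjugate σ).toRatAlgHom := by
    intro h
    apply IsTotallyComplex.complexEmbedding_not_isReal σ
    rw [ComplexEmbedding.isReal_iff]
    ext x
    have := DFunLike.congr_fun h x
    simpa using this.symm
  refine ⟨?_, hne⟩
  symm
  apply Finset.eq_univ_of_card
  rw [Finset.card_pair hne, AlgHom.card, h2]

theorem trace_eq (h2 : finrank ℚ K = 2) (σ : K →+* ℂ) (x : K) :
    ((Algebra.trace ℚ K x : ℚ) : ℂ) = σ x + (starRingEnd ℂ) (σ x) := by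
  classical
  have h := trace_eq_sum_embeddings (K := ℚ) (L := K) ℂ (x := x)
  rw [(univ_eq h2 σ).1, Finset.sum_pair (univ_eq h2 σ).2] at h
  simpa using h

theorem norm_eq (h2 : finrank ℚ K = 2) (σ : K →+* ℂ) (x : K) :
    ((Algebra.norm ℚ x : ℚ) : ℝ) = ‖σ x‖ ^ 2 := by
  classical
  have h := Algebra.norm_eq_prod_embeddings (L := K) ℚ ℂ x
  rw [(univ_eq h2 σ).1, Finset.prod_pair (univ_eq h2 σ).2] at h
  have h3 : ((Algebra.norm ℚ x : ℚ) : ℂ) = σ x * (starRingEnd ℂ) (σ x) := by simpa using h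
  rw [Complex.mul_conj, Complex.normSq_eq_norm_sq] at h3
  exact_mod_cast h3

theorem norm_int_eq (h2 : finrank ℚ K = 2) (σ : K →+* ℂ) (x : 𝓞 K) :
    ((Algebra.norm ℤ x : ℤ) : ℝ) = ‖σ x‖ ^ 2 := by
  rw [← norm_eq h2 σ, ← Algebra.coe_norm_int]
  push_cast
  rfl

/-- An integral basis indexed by `Fin 2`. -/
noncomputable def ibasis (h2 : finrank ℚ K = 2) : Basis (Fin 2) ℤ (𝓞 K) :=
  (RingOfIntegers.basis K).reindex (Fintype.equivOfCardEq (by
    rw [← Module.finrank_eq_card_basis (RingOfIntegers.basis K), RingOfIntegers.rank, h2]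
    simp))

theorem discr_eq (h2 : finrank ℚ K = 2) (σ : K →+* ℂ) :
    ((discr K : ℤ) : ℝ) =
      -4 * (σ (ibasis h2 0) * (starRingEnd ℂ) (σ (ibasis h2 1))).im ^ 2 := by
  have h1 := NumberField.discr_eq_discr K (ibasis (K := K) h2)
  rw [Algebra.discr_def, Matrix.det_fin_two] at h1
  simp only [Algebra.traceMatrix_apply, Algebra.traceForm_apply] at h1
  have h3 : ((discr K : ℤ) : ℂ) =
      ((Algebra.trace ℚ K ((ibasis h2 0 * ibasis h2 0 : 𝓞 K) : K) : ℚ) : ℂ) *
      ((Algebra.trace ℚ K ((ibasis h2 1 * ibasis h2 1 : 𝓞 K) : K) : ℚ) : ℂ) -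
      ((Algebra.trace ℚ K ((ibasis h2 0 * ibasis h2 1 : 𝓞 K) : K) : ℚ) : ℂ) *
      ((Algebra.trace ℚ K ((ibasis h2 1 * ibasis h2 0 : 𝓞 K) : K) : ℚ) : ℂ) := by
    rw [← h1]
    rw [← Algebra.coe_trace_int, ← Algebra.coe_trace_int, ← Algebra.coe_trace_int,
      ← Algebra.coe_trace_int]
    push_cast
    rfl
  rw [trace_eq h2 σ, trace_eq h2 σ, trace_eq h2 σ, trace_eq h2 σ] at h3
  simp only [map_mul] at h3
  set w := σ (ibasis h2 0 : K) with hw
  set z := σ (ibasis h2 1 : K) with hz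
  have h4 := congrArg Complex.re h3
  simp only [Complex.intCast_re, Complex.sub_re, Complex.mul_re, Complex.add_re, Complex.add_im,
    Complex.mul_im, Complex.conj_re, Complex.conj_im] at h4
  rw [h4]
  simp only [Complex.mul_im, Complex.conj_re, Complex.conj_im]
  ring

end basics

end Pool.Agent.H92.CG
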