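import Pool.Agent.H92.CG.Mellin

/-!
# Values on the real line
-/

open Real Set Filter Asymptotics MeasureTheory

namespace Pool.Agent.H92.CG

theorem Lam0_real {A : ℝ} (hA : 0 < A) (β : ℝ) (s : ℝ) :
    ∃ x : ℝ, (pair hA β).Λ₀ (s : ℂ) = (x : ℂ) := by
  let fm : ℝ → ℝ := fun t => (Ioi (1 : ℝ)).indicator (fun t => Th A β t - 1) t +
    (Ioo (0 : ℝ) 1).indicator (fun t => Th A β t - t ^ (-1 : ℝ)) t
  have h1 : ∀ t, (pair hA β).f_modif t = (fm t : ℂ) := by
    intro t
    simp only [WeakFEPair.f_modif, Pi.add_apply, fm, Complex.ofReal_add]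
    congr 1
    · by_cases h : t ∈ Ioi (1 : ℝ)
      · rw [indicator_of_mem h, indicator_of_mem h]
        simp [pair]
      · rw [indicator_of_notMem h, indicator_of_notMem h]
        simp
    · by_cases h : t ∈ Ioo (0 : ℝ) 1
      · rw [indicator_of_mem h, indicator_of_mem h]
        simp [pair]
      · rw [indicator_of_notMem h, indicator_of_notMem h]
        simp
  refine ⟨∫ t in Ioi (0 : ℝ), t ^ (s - 1) * fm t, ?_⟩
  rw [WeakFEPair.Λ₀, mellin, ← integral_complex_ofReal]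
  refine setIntegral_congr_fun measurableSet_Ioi (fun t ht => ?_)
  simp only [h1, smul_eq_mul]
  push_cast
  rw [Complex.ofReal_cpow (le_of_lt ht)]
  push_cast
  rfl

theorem Lam0_diff {A A' : ℝ} (hA : 0 < A) (hA' : 0 < A') (β β' : ℝ)
    (hlt : ∀ t : ℝ, 1 ≤ t → Th A β t < Th A' β' t) (s : ℝ) :
    ∃ x : ℝ, 0 < x ∧ (pair hA' β').Λ₀ (s : ℂ) - (pair hA β).Λ₀ (s : ℂ) = (x : ℂ) := by
  have hlt' : ∀ t : ℝ, 0 < t → Th A β t < Th A' β' t := by
    intro t ht
    rcases le_total 1 t with h | h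
    · exact hlt t h
    · have h1 := hlt (1 / t) (by rw [le_div_iff₀ ht]; linarith)
      rw [Th_feq hA β ht, Th_feq hA' β' ht] at h1
      exact lt_of_mul_lt_mul_left h1 ht.le
  have c1 : MellinConvergent (pair hA β).f_modif (s : ℂ) :=
    ((pair hA β).isStrongFEPair_toStrongFEPair.hasMellin (s : ℂ)).1
  have c2 : MellinConvergent (pair hA' β').f_modif (s : ℂ) :=
    ((pair hA' β').isStrongFEPair_toStrongFEPair.hasMellin (s : ℂ)).1
  have e1 : (pair hA' β').Λ₀ (s : ℂ) - (pair hA β).Λ₀ (s : ℂ) =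
      ∫ t in Ioi (0 : ℝ), ((t : ℂ) ^ ((s : ℂ) - 1) • (pair hA' β').f_modif t -
        (t : ℂ) ^ ((s : ℂ) - 1) • (pair hA β).f_modif t) := by
    rw [integral_sub c2 c1]
    rfl
  have hi : IntegrableOn (fun t : ℝ => (t : ℂ) ^ ((s : ℂ) - 1) • (pair hA' β').f_modif t -
        (t : ℂ) ^ ((s : ℂ) - 1) • (pair hA β).f_modif t) (Ioi 0) := Integrable.sub c2 c1
  let D : ℝ → ℝ := fun t => t ^ (s - 1) * (Th A' β' t - Th A β t)
  have hae : ∀ᵐ t : ℝ ∂(volume.restrict (Ioi 0)), (t : ℂ) ^ ((s : ℂ) - 1) • (pair hA' β').f_modif t -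
        (t : ℂ) ^ ((s : ℂ) - 1) • (pair hA β).f_modif t = (D t : ℂ) := by
    rw [ae_restrict_iff' measurableSet_Ioi]
    filter_upwards [compl_mem_ae_iff.mpr (Subsingleton.measure_zero (s := {(1 : ℝ)}) (by simp) _)]
      with t (ht₁ : t ≠ 1) (ht₀ : 0 < t)
    have hc : ((t ^ (s - 1) : ℝ) : ℂ) = (t : ℂ) ^ ((s : ℂ) - 1) := by
      rw [Complex.ofReal_cpow ht₀.le]; push_cast; rfl
    simp only [D, Complex.ofReal_mul, hc, Complex.ofReal_sub, smul_eq_mul]
    rw [← mul_sub]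
    congr 1
    rcases lt_or_gt_of_ne ht₁ with h | h
    · have m1 : t ∉ Ioi (1 : ℝ) := by simp; linarith
      have m2 : t ∈ Ioo (0 : ℝ) 1 := ⟨ht₀, h⟩
      simp only [WeakFEPair.f_modif, Pi.add_apply, indicator_of_notMem m1, indicator_of_mem m2]
      simp [pair]
    · have m1 : t ∈ Ioi (1 : ℝ) := h
      have m2 : t ∉ Ioo (0 : ℝ) 1 := by simp; intro; linarith
      simp only [WeakFEPair.f_modif, Pi.add_apply, indicator_of_mem m1, indicator_of_notMem m2]
      simp [pair]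
  have hD : IntegrableOn D (Ioi 0) := by
    have h1 : IntegrableOn (fun t => (D t : ℂ)) (Ioi 0) := (integrable_congr hae).1 hi
    have h2 : IntegrableOn (fun t => RCLike.re ((D t : ℂ))) (Ioi 0) := h1.re
    have h3 : (fun t => RCLike.re ((D t : ℂ))) = D := by
      funext t
      exact Complex.ofReal_re _
    rwa [h3] at h2
  refine ⟨∫ t in Ioi (0 : ℝ), D t, ?_, ?_⟩
  · rw [setIntegral_pos_iff_support_of_nonneg_ae]
    · have h1 : Function.support D ∩ Ioi 0 = Ioi 0 := by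
        apply inter_eq_right.2
        intro t ht
        have h2 := hlt' t ht
        have h3 : 0 < D t := mul_pos (rpow_pos_of_pos ht _) (by linarith)
        exact h3.ne'
      rw [h1]
      simp
    · refine (ae_restrict_iff' measurableSet_Ioi).2 (Eventually.of_forall fun t ht => ?_)
      exact (mul_pos (rpow_pos_of_pos ht _) (by linarith [hlt' t ht])).le
    · exact hD
  · rw [e1, integral_congr_ae hae, integral_complex_ofReal]

end Pool.Agent.H92.CG
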