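import Pool.Agent.H92.CG.QuadField

/-!
# Reduced bases of ideals in imaginary quadratic fields
-/

open NumberField Module

namespace Pool.Agent.H92.CG

section reduced

variable {K : Type*} [Field K] [NumberField K] [IsTotallyComplex K]

/-- `x, y` is a `ℤ`-basis of the ideal `J`, of the right covolume. -/
def PB (σ : K →+* ℂ) (J : Ideal (𝓞 K)) (x y : J) : Prop :=
  Function.Bijective (fun v : ℤ × ℤ => v.1 • x + v.2 • y) ∧
    2 * |(σ (y : 𝓞 K) * (starRingEnd ℂ) (σ (x : 𝓞 K))).im| =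
      (Ideal.absNorm J : ℝ) * √|((discr K : ℤ) : ℝ)|

omit [IsTotallyComplex K] in
theorem PB.swap {σ : K →+* ℂ} {J : Ideal (𝓞 K)} {x y : J} (h : PB σ J x y) : PB σ J y x := by
  refine ⟨?_, ?_⟩
  · have h1 := h.1.comp (Equiv.prodComm ℤ ℤ).bijective
    convert h1 using 1
    funext v
    simp [add_comm]
  · rw [← h.2]
    congr 1
    rw [← abs_neg]
    congr 1
    simp only [Complex.mul_im, Complex.conj_re, Complex.conj_im]
    ring

omit [IsTotallyComplex K] in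
theorem PB.shear {σ : K →+* ℂ} {J : Ideal (𝓞 K)} {x y : J} (h : PB σ J x y) (k : ℤ) :
    PB σ J x (y + k • x) := by
  refine ⟨?_, ?_⟩
  · let e : ℤ × ℤ ≃ ℤ × ℤ :=
      { toFun := fun v => (v.1 + k * v.2, v.2)
        invFun := fun v => (v.1 - k * v.2, v.2)
        left_inv := fun v => by ext <;> simp
        right_inv := fun v => by ext <;> simp }
    have h1 := h.1.comp e.bijective
    convert h1 using 1
    funext v
    simp only [Function.comp, e, Equiv.coe_fn_mk]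
    module
  · rw [← h.2]
    congr 2
    have e1 : σ (((y + k • x : J) : 𝓞 K) : K) = σ (y : 𝓞 K) + (k : ℂ) * σ (x : 𝓞 K) := by
      simp
    rw [e1]
    simp only [Complex.mul_im, Complex.conj_re, Complex.conj_im, Complex.add_re, Complex.add_im,
      Complex.mul_re, Complex.intCast_re, Complex.intCast_im]
    ring

theorem exists_PB (h2 : finrank ℚ K = 2) (σ : K →+* ℂ) (J : Ideal (𝓞 K)) (hJ : J ≠ ⊥) :
    ∃ x y : J, PB σ J x y := by
  classical
  let b := ibasis (K := K) h2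
  let c := Ideal.selfBasis b J hJ
  refine ⟨c 0, c 1, ?_, ?_⟩
  · have h1 : Function.Bijective (fun v : ℤ × ℤ => c.equivFun.symm ((finTwoArrowEquiv ℤ).symm v)) :=
      c.equivFun.symm.bijective.comp (finTwoArrowEquiv ℤ).symm.bijective
    convert h1 using 1
    funext v
    rw [Basis.equivFun_symm_apply]
    simp
  · have h3 := Ideal.natAbs_det_basis_change b J c
    have h4 := discr_eq h2 σ
    rw [Basis.det_apply, Matrix.det_fin_two] at h3
    simp only [Basis.toMatrix_apply, Function.comp] at h3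
    have h5 : ∀ i, σ ((c i : 𝓞 K) : K) = ((b.repr (c i : 𝓞 K) 0 : ℤ) : ℂ) * σ (b 0 : 𝓞 K) +
        ((b.repr (c i : 𝓞 K) 1 : ℤ) : ℂ) * σ (b 1 : 𝓞 K) := by
      intro i
      have h6 := b.sum_repr (c i : 𝓞 K)
      rw [Fin.sum_univ_two] at h6
      conv_lhs => rw [← h6]
      simp
    rw [h5 0, h5 1, ← h3]
    set p := b.repr (c 0 : 𝓞 K) 0
    set q := b.repr (c 0 : 𝓞 K) 1
    set r := b.repr (c 1 : 𝓞 K) 0
    set s := b.repr (c 1 : 𝓞 K) 1
    have h7 : |((discr K : ℤ) : ℝ)| = (2 * |(σ (b 0 : 𝓞 K) * (starRingEnd ℂ) (σ (b 1 : 𝓞 K))).im|)^2 := by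
      rw [h4, abs_mul, abs_pow, mul_pow]
      norm_num
      rfl
    rw [h7, Real.sqrt_sq (by positivity)]
    have h8 : (((p * s - r * q).natAbs : ℕ) : ℝ) = |((p * s - r * q : ℤ) : ℝ)| := by
      rw [← Int.cast_abs, Nat.cast_natAbs]
    rw [h8]
    rw [mul_left_comm]
    rw [← abs_mul]
    congr 1
    rw [← abs_neg]
    congr 1
    simp only [Complex.mul_im, Complex.conj_re, Complex.conj_im, Complex.add_re, Complex.add_im,
      Complex.mul_re, Complex.intCast_re, Complex.intCast_im]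
    push_cast
    ring

/-- A reduced basis. -/
theorem exists_reduced (h2 : finrank ℚ K = 2) (σ : K →+* ℂ) (J : Ideal (𝓞 K)) (hJ : J ≠ ⊥) :
    ∃ x y : J, PB σ J x y ∧
      2 * |(σ (y : 𝓞 K) * (starRingEnd ℂ) (σ (x : 𝓞 K))).re| ≤ ‖σ (x : 𝓞 K)‖ ^ 2 ∧
      ‖σ (x : 𝓞 K)‖ ≤ ‖σ (y : 𝓞 K)‖ := by
  classical
  have hex : ∃ n : ℕ, ∃ x y : J, PB σ J x y ∧ (Algebra.norm ℤ (x : 𝓞 K)).natAbs = n := by
    obtain ⟨x, y, h⟩ := exists_PB h2 σ J hJ
    exact ⟨_, x, y, h, rfl⟩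
  obtain ⟨x, y, h, hn⟩ := Nat.find_spec hex
  have hmin : ∀ x' y' : J, PB σ J x' y' → ‖σ (x : 𝓞 K)‖ ^ 2 ≤ ‖σ (x' : 𝓞 K)‖ ^ 2 := by
    intro x' y' h'
    have h3 := Nat.find_min' hex ⟨x', y', h', rfl⟩
    rw [← hn] at h3
    have h4 : ∀ z : 𝓞 K, (((Algebra.norm ℤ z).natAbs : ℕ) : ℝ) = ‖σ z‖ ^ 2 := by
      intro z
      rw [← norm_int_eq h2 σ, Nat.cast_natAbs, abs_of_nonneg]
      have : (0 : ℝ) ≤ ((Algebra.norm ℤ z : ℤ) : ℝ) := by
        rw [norm_int_eq h2 σ]; positivity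
      exact_mod_cast this
    rw [← h4, ← h4]
    exact_mod_cast h3
  have hx0 : σ (x : 𝓞 K) ≠ 0 := by
    intro h0
    have h5 := h.1.1
    have h6 : x = 0 := by
      have : ((x : 𝓞 K) : K) = 0 := by
        apply (map_eq_zero σ).1 h0
      have h7 : (x : 𝓞 K) = 0 := by exact_mod_cast this
      exact Subtype.ext h7
    have h7 : (fun v : ℤ × ℤ => v.1 • x + v.2 • y) (1, 0) =
        (fun v : ℤ × ℤ => v.1 • x + v.2 • y) (0, 0) := by
      simp [h6]
    have h8 := h5 h7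
    simp at h8
  have hxp : 0 < ‖σ (x : 𝓞 K)‖ ^ 2 := by positivity
  set B : ℝ := (σ (y : 𝓞 K) * (starRingEnd ℂ) (σ (x : 𝓞 K))).re with hB
  let k : ℤ := -round (B / ‖σ (x : 𝓞 K)‖ ^ 2)
  have hsh := h.shear k
  refine ⟨x, y + k • x, hsh, ?_, ?_⟩
  · have e1 : σ (((y + k • x : J) : 𝓞 K) : K) = σ (y : 𝓞 K) + (k : ℂ) * σ (x : 𝓞 K) := by
      simp
    rw [e1, add_mul, Complex.add_re, ← hB, mul_assoc, Complex.mul_conj, Complex.normSq_eq_norm_sq]
    have e2 : ((k : ℂ) * ((‖σ (x : 𝓞 K)‖ ^ 2 : ℝ) : ℂ)).re = (k : ℝ) * ‖σ (x : 𝓞 K)‖ ^ 2 := by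
      rw [Complex.mul_re, Complex.intCast_re, Complex.intCast_im, Complex.ofReal_re]
      ring
    rw [e2]
    have e3 := abs_sub_round (B / ‖σ (x : 𝓞 K)‖ ^ 2)
    have e4 : B + (k : ℝ) * ‖σ (x : 𝓞 K)‖ ^ 2 =
        (B / ‖σ (x : 𝓞 K)‖ ^ 2 - round (B / ‖σ (x : 𝓞 K)‖ ^ 2)) * ‖σ (x : 𝓞 K)‖ ^ 2 := by
      rw [sub_mul, div_mul_cancel₀ _ hxp.ne']
      simp only [k]
      push_cast
      ring
    rw [e4, abs_mul, abs_of_pos hxp]
    nlinarith
  · have h9 := hmin _ _ hsh.swap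
    exact (pow_le_pow_iff_left₀ (norm_nonneg _) (norm_nonneg _) (by norm_num : (2 : ℕ) ≠ 0)).1 h9

theorem alg_aux (Z W P R : ℝ) (hZ : Z ≠ 0) (hR : R ≠ 0) (h : P ^ 2 = Z * W - R ^ 2) (m n : ℝ) :
    2 * (m ^ 2 * Z + 2 * m * n * P + n ^ 2 * W) / (2 * R) =
      Z / R * (m + P / Z * n) ^ 2 + n ^ 2 / (Z / R) := by
  field_simp
  linear_combination (-n ^ 2) * h

/-- The norm form of an ideal is a reduced form `qf A β`; the ideal is principal
if the smallest value is small. -/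
theorem exists_form (h2 : finrank ℚ K = 2) (σ : K →+* ℂ) (J : Ideal (𝓞 K)) (hJ : J ≠ ⊥) :
    ∃ (A β : ℝ) (E : ℤ × ℤ ≃ J), 0 < A ∧ 3 * A ^ 2 ≤ 4 ∧
      (∀ v, 2 * ‖σ (E v : 𝓞 K)‖ ^ 2 / ((Ideal.absNorm J : ℝ) * √|((discr K : ℤ) : ℝ)|) =
        qf A β v) ∧ E 0 = 0 ∧
      (¬ Submodule.IsPrincipal J → 4 / √|((discr K : ℤ) : ℝ)| ≤ A) := by
  obtain ⟨x, y, h, h3, h4⟩ := exists_reduced h2 σ J hJ
  set D : ℝ := √|((discr K : ℤ) : ℝ)| with hD
  have hDpos : 0 < D := by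
    apply Real.sqrt_pos.2
    rw [abs_pos]
    exact_mod_cast discr_ne_zero K
  have hNpos : 0 < (Ideal.absNorm J : ℝ) := by
    have : Ideal.absNorm J ≠ 0 := by rwa [Ne, Ideal.absNorm_eq_zero_iff]
    positivity
  set z := σ (x : 𝓞 K) with hz
  set w := σ (y : 𝓞 K) with hw
  set P : ℝ := (w * (starRingEnd ℂ) z).re with hP
  set Q : ℝ := (w * (starRingEnd ℂ) z).im with hQ
  have h5 : 2 * |Q| = (Ideal.absNorm J : ℝ) * D := h.2
  have hQpos : 0 < |Q| := by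
    have : 0 < (Ideal.absNorm J : ℝ) * D := by positivity
    linarith
  have h6 : P ^ 2 + |Q| ^ 2 = ‖z‖ ^ 2 * ‖w‖ ^ 2 := by
    rw [sq_abs, ← Complex.normSq_eq_norm_sq, ← Complex.normSq_eq_norm_sq, Complex.normSq_apply,
      Complex.normSq_apply, hP, hQ]
    simp only [Complex.mul_re, Complex.mul_im, Complex.conj_re, Complex.conj_im]
    ring
  have hzpos : 0 < ‖z‖ ^ 2 := by
    rcases eq_or_ne z 0 with h0 | h0
    · exfalso
      rw [h0] at h6
      simp only [norm_zero] at h6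
      nlinarith [sq_nonneg P]
    · positivity
  have hval : ∀ m n : ℤ, ‖(m : ℂ) * z + (n : ℂ) * w‖ ^ 2 =
      (m : ℝ) ^ 2 * ‖z‖ ^ 2 + 2 * m * n * P + (n : ℝ) ^ 2 * ‖w‖ ^ 2 := by
    intro m n
    rw [← Complex.normSq_eq_norm_sq, ← Complex.normSq_eq_norm_sq, ← Complex.normSq_eq_norm_sq,
      Complex.normSq_apply, Complex.normSq_apply, Complex.normSq_apply, hP]
    simp only [Complex.mul_re, Complex.mul_im, Complex.conj_re, Complex.conj_im, Complex.add_re,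
      Complex.add_im, Complex.intCast_re, Complex.intCast_im]
    ring
  refine ⟨‖z‖ ^ 2 / |Q|, P / ‖z‖ ^ 2, Equiv.ofBijective _ h.1, by positivity, ?_, ?_, ?_, ?_⟩
  · rw [div_pow, mul_div_assoc', div_le_iff₀ (by positivity)]
    have h7 : ‖z‖ ^ 2 ≤ ‖w‖ ^ 2 := by gcongr
    have h8 : |P| ^ 2 = P ^ 2 := sq_abs P
    nlinarith [abs_nonneg P]
  · intro v
    have e1 : σ (((Equiv.ofBijective _ h.1) v : J) : 𝓞 K) =
        (v.1 : ℂ) * z + (v.2 : ℂ) * w := by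
      simp [hz, hw]
    rw [e1, hval, ← h5, qf]
    exact alg_aux _ _ _ _ hzpos.ne' hQpos.ne' (by linarith) _ _
  · simp
  · intro hnp
    obtain ⟨a, ha⟩ := Ideal.absNorm_dvd_norm_of_mem x.2
    have h7 : ‖z‖ ^ 2 = (Ideal.absNorm J : ℝ) * (a : ℝ) := by
      rw [hz, ← norm_int_eq h2 σ, ha]
      push_cast
      rfl
    have ha0 : 0 < (a : ℝ) := by
      by_contra hcon
      push Not at hcon
      nlinarith
    have ha1 : 1 ≤ a := by
      have : 0 < a := by exact_mod_cast ha0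
      omega
    have ha2 : 2 ≤ a := by
      by_contra hcon
      have ha3 : a = 1 := by omega
      rw [ha3, mul_one] at ha
      apply hnp
      have h8 : J ∣ Ideal.span {(x : 𝓞 K)} := by
        rw [Ideal.dvd_span_singleton]; exact x.2
      obtain ⟨J', hJ'⟩ := h8
      have h9 : Ideal.absNorm J * Ideal.absNorm J' = Ideal.absNorm J := by
        rw [← map_mul, ← hJ', Ideal.absNorm_span_singleton, ha]
        simp
      have h10 : Ideal.absNorm J' = 1 := by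
        have : Ideal.absNorm J ≠ 0 := by rwa [Ne, Ideal.absNorm_eq_zero_iff]
        exact Nat.eq_of_mul_eq_mul_left (Nat.pos_of_ne_zero this) (by rw [h9, mul_one])
      have h11 := Ideal.absNorm_eq_one_iff.1 h10
      rw [h11, Ideal.mul_top] at hJ'
      exact ⟨⟨(x : 𝓞 K), hJ'.symm⟩⟩
    have ha4 : (2 : ℝ) ≤ (a : ℝ) := by exact_mod_cast ha2
    rw [div_le_div_iff₀ hDpos hQpos, h7]
    nlinarith [mul_pos hNpos hDpos]

end reduced

end Pool.Agent.H92.CG
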