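import Mathlib

/-!
# Theta functions of positive definite binary forms

The form is written `q(m,n) = A (m + β n)^2 + n^2 / A` with `A > 0` (determinant one).
-/

open Real

namespace Pool.Agent.H92.CG

/-- The form of determinant one with parameters `A`, `β`. -/
noncomputable def qf (A β : ℝ) (v : ℤ × ℤ) : ℝ := A * (v.1 + β * v.2) ^ 2 + (v.2 : ℝ) ^ 2 / A

/-- One variable theta function. -/
noncomputable def th (u : ℝ) : ℝ := ∑' n : ℤ, exp (-π * u * (n : ℝ) ^ 2)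

/-- The two variable theta function. -/
noncomputable def Th (A β t : ℝ) : ℝ := ∑' v : ℤ × ℤ, exp (-π * t * qf A β v)

theorem summable_geom_int {r : ℝ} (h0 : 0 ≤ r) (h1 : r < 1) : Summable fun n : ℤ => r ^ n.natAbs := by
  refine Summable.of_nat_of_neg ?_ ?_
  · simpa using summable_geometric_of_lt_one h0 h1
  · simpa using summable_geometric_of_lt_one h0 h1

theorem summable_th {u : ℝ} (hu : 0 < u) : Summable fun n : ℤ => exp (-π * u * (n : ℝ) ^ 2) := by
  have hr1 : exp (-π * u) < 1 := by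
    rw [exp_lt_one_iff]
    have := mul_pos pi_pos hu
    linarith
  refine Summable.of_nonneg_of_le (fun n => (exp_pos _).le) (fun n => ?_)
    (summable_geom_int (exp_pos (-π * u)).le hr1)
  rw [← exp_nat_mul, exp_le_exp]
  have h1 : (n.natAbs : ℝ) ≤ (n : ℝ) ^ 2 := by
    have h2 : (n.natAbs : ℝ) = |(n : ℝ)| := by
      rw [Nat.cast_natAbs, Int.cast_abs]
    rw [h2, ← sq_abs]
    have h3 : (n : ℝ) = 0 ∨ 1 ≤ |(n : ℝ)| := by
      rcases eq_or_ne n 0 with h | h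
      · left; simp [h]
      · right
        have := Int.one_le_abs h
        exact_mod_cast this
    rcases h3 with h3 | h3
    · simp [h3]
    · nlinarith
  have h2 : 0 < π * u := mul_pos pi_pos hu
  nlinarith

theorem qf_lower {A : ℝ} (hA : 0 < A) (β : ℝ) :
    ∃ c : ℝ, 0 < c ∧ ∀ v : ℤ × ℤ, c * ((v.1 : ℝ) ^ 2 + (v.2 : ℝ) ^ 2) ≤ qf A β v := by
  refine ⟨1 / (2 / A + (2 * β ^ 2 + 1) * A), by positivity, fun v => ?_⟩
  have hM : 0 < 2 / A + (2 * β ^ 2 + 1) * A := by positivity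
  rw [one_div, inv_mul_le_iff₀ hM]
  unfold qf
  set x : ℝ := (v.1 : ℝ) + β * v.2 with hx
  set n : ℝ := (v.2 : ℝ) with hn
  have h1 : (v.1 : ℝ) = x - β * n := by rw [hx]; ring
  rw [h1]
  have h2 : (2 / A + (2 * β ^ 2 + 1) * A) * (A * x ^ 2 + n ^ 2 / A) =
      2 * x ^ 2 + (2 * β ^ 2 + 1) * n ^ 2 + (2 * β ^ 2 + 1) * A ^ 2 * x ^ 2 + 2 * n ^ 2 / A ^ 2 := by
    field_simp
    ring
  rw [h2]
  have h3 : 0 ≤ (2 * β ^ 2 + 1) * A ^ 2 * x ^ 2 := by positivity
  have h4 : 0 ≤ 2 * n ^ 2 / A ^ 2 := by positivity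
  nlinarith [sq_nonneg (x + β * n)]

theorem summable_Th {A t : ℝ} (hA : 0 < A) (β : ℝ) (ht : 0 < t) :
    Summable fun v : ℤ × ℤ => exp (-π * t * qf A β v) := by
  obtain ⟨c, hc, hcq⟩ := qf_lower hA β
  have h1 : Summable fun v : ℤ × ℤ =>
      exp (-π * (t * c) * (v.1 : ℝ) ^ 2) * exp (-π * (t * c) * (v.2 : ℝ) ^ 2) :=
    (summable_th (mul_pos ht hc)).mul_of_nonneg (summable_th (mul_pos ht hc))
      (fun n => (exp_pos _).le) (fun n => (exp_pos _).le)
  refine Summable.of_nonneg_of_le (fun n => (exp_pos _).le) (fun v => ?_) h1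
  rw [← exp_add, exp_le_exp]
  have h2 := mul_le_mul_of_nonneg_left (hcq v) (mul_pos pi_pos ht).le
  nlinarith

section FE

open Complex in
theorem poisson_shift {a : ℝ} (ha : 0 < a) (x : ℝ) :
    (∑' m : ℤ, cexp (-π * a * ((m : ℂ) + x) ^ 2)) =
      1 / (a : ℂ) ^ (1 / 2 : ℂ) * ∑' k : ℤ, cexp (-π / a * (k : ℂ) ^ 2 + 2 * π * (I * x) * k) := by
  have ha' : (a : ℂ) ≠ 0 := by exact_mod_cast ha.ne'
  have h1 := Complex.tsum_exp_neg_quadratic (a := (a : ℂ)) (by simpa using ha) (-(a * x : ℂ))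
  have h2 : ∀ m : ℤ, cexp (-π * a * ((m : ℂ) + x) ^ 2) =
      cexp (-π * a * x ^ 2) * cexp (-π * a * (m : ℂ) ^ 2 + 2 * π * (-(a * x : ℂ)) * m) := by
    intro m
    rw [← Complex.exp_add]
    congr 1
    ring
  rw [tsum_congr h2, tsum_mul_left, h1, mul_left_comm, ← tsum_mul_left]
  congr 1
  refine tsum_congr fun k => ?_
  rw [← Complex.exp_add]
  congr 1
  have hI : I ^ 2 = -1 := Complex.I_sq
  field_simp
  linear_combination (-(a : ℂ) ^ 2 * x ^ 2) * hI

open Complex in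
theorem poisson_twist {b : ℝ} (hb : 0 < b) (y : ℝ) :
    (∑' n : ℤ, cexp (-π * b * (n : ℂ) ^ 2 + 2 * π * (I * y) * n)) =
      1 / (b : ℂ) ^ (1 / 2 : ℂ) * ∑' l : ℤ, cexp (-π / b * ((l : ℂ) - y) ^ 2) := by
  have h1 := Complex.tsum_exp_neg_quadratic (a := (b : ℂ)) (by simpa using hb) (I * y)
  rw [h1]
  congr 1
  refine tsum_congr fun l => ?_
  congr 2
  have hI : I * (I * (y : ℂ)) = -y := by rw [← mul_assoc, Complex.I_mul_I]; ring
  rw [hI]
  ring

open Complex in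
theorem Th_complex {A t : ℝ} (hA : 0 < A) (β : ℝ) (ht : 0 < t) :
    (Th A β t : ℂ) = ∑' n : ℤ, ∑' m : ℤ,
      cexp (-π * t * ((A : ℂ) * ((m : ℂ) + (β * n : ℝ)) ^ 2 + (n : ℂ) ^ 2 / A)) := by
  have h1 := summable_Th hA β ht
  have h2 : Summable fun v : ℤ × ℤ => (rexp (-π * t * qf A β v) : ℂ) :=
    Complex.ofRealCLM.summable h1
  rw [Th, Complex.ofReal_tsum, h2.tsum_prod]
  rw [← Summable.tsum_comm (f := fun m n : ℤ => (rexp (-π * t * qf A β (m, n)) : ℂ)) h2]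
  refine tsum_congr fun n => tsum_congr fun m => ?_
  unfold qf
  push_cast
  rfl

open Complex in
theorem Th_feq {A t : ℝ} (hA : 0 < A) (β : ℝ) (ht : 0 < t) :
    Th A β (1 / t) = t * Th A β t := by
  have hA' : (A : ℂ) ≠ 0 := by exact_mod_cast hA.ne'
  have ht' : (t : ℂ) ≠ 0 := by exact_mod_cast ht.ne'
  have hta : 0 < t * A := mul_pos ht hA
  have htb : 0 < t / A := div_pos ht hA
  -- the double series in `(n,k)`
  let G : ℤ → ℤ → ℂ := fun n k => cexp (-π * (t / A : ℝ) * (n : ℂ) ^ 2) *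
    cexp (-π / (t * A : ℝ) * (k : ℂ) ^ 2 + 2 * π * (I * (β * n : ℝ)) * k)
  have hG : Summable (Function.uncurry G) := by
    have h1 : Summable fun v : ℤ × ℤ => rexp (-π * (t / A) * (v.1 : ℝ) ^ 2) *
        rexp (-π * (1 / (t * A)) * (v.2 : ℝ) ^ 2) :=
      (summable_th htb).mul_of_nonneg (summable_th (by positivity))
        (fun n => (Real.exp_pos _).le) (fun n => (Real.exp_pos _).le)
    refine Summable.of_norm_bounded h1 (fun v => ?_)
    simp only [Function.uncurry, G, norm_mul, Complex.norm_exp]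
    apply le_of_eq
    congr 2
    · have : (-π * (t / A : ℝ) * (v.1 : ℂ) ^ 2 : ℂ) = ((-π * (t / A) * (v.1 : ℝ) ^ 2 : ℝ) : ℂ) := by
        push_cast; ring
      rw [this, Complex.ofReal_re]
    · have : (-π / (t * A : ℝ) * (v.2 : ℂ) ^ 2 + 2 * π * (I * (β * v.1 : ℝ)) * v.2 : ℂ) =
          ((-π * (1 / (t * A)) * (v.2 : ℝ) ^ 2 : ℝ) : ℂ) +
            ((2 * π * β * v.1 * v.2 : ℝ) : ℂ) * I := by
        push_cast; ring
      rw [this]
      simp only [Complex.add_re, Complex.ofReal_re, Complex.mul_I_re, Complex.ofReal_im, neg_zero,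
        add_zero]
  have e1 : (Th A β t : ℂ) = 1 / ((t * A : ℝ) : ℂ) ^ (1 / 2 : ℂ) * ∑' n : ℤ, ∑' k : ℤ, G n k := by
    rw [Th_complex hA β ht, ← tsum_mul_left]
    refine tsum_congr fun n => ?_
    have h2 : ∀ m : ℤ, cexp (-π * t * ((A : ℂ) * ((m : ℂ) + (β * n : ℝ)) ^ 2 + (n : ℂ) ^ 2 / A)) =
        cexp (-π * (t / A : ℝ) * (n : ℂ) ^ 2) *
          cexp (-π * (t * A : ℝ) * ((m : ℂ) + (β * n : ℝ)) ^ 2) := by
      intro m
      rw [← Complex.exp_add]
      congr 1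
      push_cast
      field_simp
      ring
    rw [tsum_congr h2, tsum_mul_left, poisson_shift hta (β * n), mul_left_comm, ← tsum_mul_left]
  have e2 : ∑' n : ℤ, ∑' k : ℤ, G n k = ∑' k : ℤ, ∑' n : ℤ, G n k :=
    (Summable.tsum_comm (f := G) hG).symm
  have e3 : ∑' k : ℤ, ∑' n : ℤ, G n k = 1 / ((t / A : ℝ) : ℂ) ^ (1 / 2 : ℂ) *
      (Th A β (1 / t) : ℂ) := by
    rw [Th_complex hA β (one_div_pos.2 ht), ← tsum_mul_left]
    rw [← (Equiv.neg ℤ).tsum_eq]
    refine tsum_congr fun k => ?_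
    have h2 : ∀ n : ℤ, G n ((Equiv.neg ℤ) k) = cexp (-π / (t * A : ℝ) * (k : ℂ) ^ 2) *
        cexp (-π * (t / A : ℝ) * (n : ℂ) ^ 2 + 2 * π * (I * (-(β * k) : ℝ)) * n) := by
      intro n
      simp only [G, Equiv.neg_apply]
      rw [← Complex.exp_add, ← Complex.exp_add]
      congr 1
      push_cast
      ring
    rw [tsum_congr h2, tsum_mul_left, poisson_twist htb, mul_left_comm, ← tsum_mul_left]
    congr 1
    refine tsum_congr fun l => ?_
    rw [← Complex.exp_add]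
    congr 1
    push_cast
    field_simp
    ring
  have e4 : ((t * A : ℝ) : ℂ) ^ (1 / 2 : ℂ) * ((t / A : ℝ) : ℂ) ^ (1 / 2 : ℂ) = t := by
    rw [← Complex.mul_cpow_ofReal_nonneg hta.le htb.le]
    have h5 : (((t * A : ℝ) : ℂ) * ((t / A : ℝ) : ℂ)) = (t : ℂ) ^ 2 := by
      push_cast; field_simp
    rw [h5, one_div]
    have h6 : ((t : ℂ) ^ 2) ^ (2⁻¹ : ℂ) = t := by
      have := Complex.pow_cpow_nat_inv (x := (t : ℂ)) (n := 2) two_ne_zero ?_ ?_
      · simpa using this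
      · rw [Complex.arg_ofReal_of_nonneg ht.le]
        have := pi_pos
        simp only [Nat.cast_ofNat, Left.neg_neg_iff, gt_iff_lt]
        linarith
      · rw [Complex.arg_ofReal_of_nonneg ht.le]
        have := pi_pos
        positivity
    exact h6
  have e5 : (Th A β t : ℂ) * t = (Th A β (1 / t) : ℂ) := by
    rw [e1, e2, e3, ← e4]
    have h7 : ((t * A : ℝ) : ℂ) ^ (1 / 2 : ℂ) ≠ 0 := by
      rw [Ne, Complex.cpow_eq_zero_iff]
      push Not
      intro h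
      exact absurd (by exact_mod_cast h) hta.ne'
    have h8 : ((t / A : ℝ) : ℂ) ^ (1 / 2 : ℂ) ≠ 0 := by
      rw [Ne, Complex.cpow_eq_zero_iff]
      push Not
      intro h
      exact absurd (by exact_mod_cast h) htb.ne'
    field_simp
  have e6 : ((Th A β (1 / t) : ℝ) : ℂ) = ((t * Th A β t : ℝ) : ℂ) := by
    rw [← e5]; push_cast; ring
  exact_mod_cast e6

end FE

end Pool.Agent.H92.CG
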